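import Pool.Agent.H73.HVN.Closure

/-!
# Finite amplification of maps between von Neumann algebras

`𝓜₁` on `H₁`, `𝓜` on `H`; for every `g` in a finite set `G` the `V h g : H₁ → H` (`h ∈ G`) are isometries
with orthogonal ranges, the sum of which is `H`; `R h g` is the adjoint of `V h g`.
-/

set_option autoImplicit false

open scoped ComplexOrder InnerProductSpace
open Filter Topology

namespace Pool.Agent.H26.SD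

open Pool.Agent.H73.HVN

universe u

variable {H H₁ : Type u} [NormedAddCommGroup H] [InnerProductSpace ℂ H]
  [NormedAddCommGroup H₁] [InnerProductSpace ℂ H₁]

/-- the data of an amplification -/
structure Amp (𝓜 : Subalgebra ℂ (H →L[ℂ] H)) (𝓜₁ : Subalgebra ℂ (H₁ →L[ℂ] H₁)) (Ω : H) (Ω₁ : H₁)
    (G : Type u) [Fintype G] [DecidableEq G] where
  V : G → G → (H₁ →L[ℂ] H)
  R : G → G → (H →L[ℂ] H₁)
  adj : ∀ h g ξ η, ⟪V h g ξ, η⟫_ℂ = ⟪ξ, R h g η⟫_ℂ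
  RV : ∀ g h k ξ, R h g (V k g ξ) = if h = k then ξ else 0
  tot : ∀ g ξ, ∑ h, V h g (R h g ξ) = ξ
  mem : ∀ x ∈ 𝓜, ∀ g h k, (R h g) ∘L (x ∘L (V k g)) ∈ 𝓜₁
  avg : ∀ (Φ : 𝓜₁ →ₗ[ℂ] 𝓜₁) (x : H →L[ℂ] H) (hx : x ∈ 𝓜),
    (∑ g, ∑ h, ∑ k, V h g ∘L ((Φ ⟨_, mem x hx g h k⟩ : H₁ →L[ℂ] H₁) ∘L R k g)) ∈ 𝓜
  om : ∀ g, ∃ h, V h g Ω₁ = Ω

variable {𝓜 : Subalgebra ℂ (H →L[ℂ] H)} {𝓜₁ : Subalgebra ℂ (H₁ →L[ℂ] H₁)} {Ω : H} {Ω₁ : H₁}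
  {G : Type u} [Fintype G] [DecidableEq G]

namespace Amp

variable (D : Amp 𝓜 𝓜₁ Ω Ω₁ G)

/-- the entries of `x` -/
def cp (g h k : G) : 𝓜 →ₗ[ℂ] 𝓜₁ where
  toFun x := ⟨(D.R h g) ∘L ((x : H →L[ℂ] H) ∘L (D.V k g)), D.mem x x.2 g h k⟩
  map_add' x y := by
    apply Subtype.ext
    ext ξ
    simp
  map_smul' c x := by
    apply Subtype.ext
    ext ξ
    simp

theorem cp_apply (g h k : G) (x : 𝓜) (ξ : H₁) :
    (D.cp g h k x : H₁ →L[ℂ] H₁) ξ = D.R h g ((x : H →L[ℂ] H) (D.V k g ξ)) := rfl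

/-- the amplification of `Φ` -/
noncomputable def amp (Φ : 𝓜₁ →ₗ[ℂ] 𝓜₁) : 𝓜 →ₗ[ℂ] 𝓜 where
  toFun x := ((Fintype.card G : ℂ)⁻¹) • ⟨_, D.avg Φ x x.2⟩
  map_add' x y := by
    rw [← smul_add]
    congr 1
    apply Subtype.ext
    have h1 : ∀ g h k, (⟨_, D.mem (x + y : 𝓜) (x + y : 𝓜).2 g h k⟩ : 𝓜₁) =
        D.cp g h k x + D.cp g h k y := fun g h k => (D.cp g h k).map_add x y
    change (∑ g, ∑ h, ∑ k, D.V h g ∘L ((Φ ⟨_, D.mem (x + y : 𝓜) (x + y : 𝓜).2 g h k⟩ :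
      H₁ →L[ℂ] H₁) ∘L D.R k g)) = (∑ g, ∑ h, ∑ k, D.V h g ∘L ((Φ (D.cp g h k x) :
      H₁ →L[ℂ] H₁) ∘L D.R k g)) + ∑ g, ∑ h, ∑ k, D.V h g ∘L ((Φ (D.cp g h k y) :
      H₁ →L[ℂ] H₁) ∘L D.R k g)
    rw [← Finset.sum_add_distrib]
    refine Finset.sum_congr rfl fun g _ => ?_
    rw [← Finset.sum_add_distrib]
    refine Finset.sum_congr rfl fun h _ => ?_
    rw [← Finset.sum_add_distrib]
    refine Finset.sum_congr rfl fun k _ => ?_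
    rw [h1, map_add]
    ext ξ
    simp
  map_smul' c x := by
    rw [smul_comm]
    congr 1
    apply Subtype.ext
    have h1 : ∀ g h k, (⟨_, D.mem (c • x : 𝓜) (c • x : 𝓜).2 g h k⟩ : 𝓜₁) =
        c • D.cp g h k x := fun g h k => (D.cp g h k).map_smul c x
    change (∑ g, ∑ h, ∑ k, D.V h g ∘L ((Φ ⟨_, D.mem (c • x : 𝓜) (c • x : 𝓜).2 g h k⟩ :
      H₁ →L[ℂ] H₁) ∘L D.R k g)) = c • (∑ g, ∑ h, ∑ k, D.V h g ∘L ((Φ (D.cp g h k x) :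
      H₁ →L[ℂ] H₁) ∘L D.R k g))
    rw [Finset.smul_sum]
    refine Finset.sum_congr rfl fun g _ => ?_
    rw [Finset.smul_sum]
    refine Finset.sum_congr rfl fun h _ => ?_
    rw [Finset.smul_sum]
    refine Finset.sum_congr rfl fun k _ => ?_
    rw [h1, map_smul]
    ext ξ
    simp

theorem amp_apply (Φ : 𝓜₁ →ₗ[ℂ] 𝓜₁) (x : 𝓜) (ξ : H) :
    (D.amp Φ x : H →L[ℂ] H) ξ = ((Fintype.card G : ℂ)⁻¹) •
      ∑ g, ∑ h, ∑ k, D.V h g ((Φ (D.cp g h k x) : H₁ →L[ℂ] H₁) (D.R k g ξ)) := by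
  change ((Fintype.card G : ℂ)⁻¹) • ((∑ g, ∑ h, ∑ k, D.V h g ∘L ((Φ (D.cp g h k x) :
      H₁ →L[ℂ] H₁) ∘L D.R k g)) ξ) = _
  congr 1
  simp

theorem inner_amp (Φ : 𝓜₁ →ₗ[ℂ] 𝓜₁) (x : 𝓜) (ξ η : H) :
    ⟪η, (D.amp Φ x : H →L[ℂ] H) ξ⟫_ℂ = ((Fintype.card G : ℂ)⁻¹) *
      ∑ g, ∑ h, ∑ k, ⟪D.R h g η, (Φ (D.cp g h k x) : H₁ →L[ℂ] H₁) (D.R k g ξ)⟫_ℂ := by
  rw [amp_apply, inner_smul_right]
  congr 1
  rw [inner_sum]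
  refine Finset.sum_congr rfl fun g _ => ?_
  rw [inner_sum]
  refine Finset.sum_congr rfl fun h _ => ?_
  rw [inner_sum]
  refine Finset.sum_congr rfl fun k _ => ?_
  rw [← inner_conj_symm, D.adj, inner_conj_symm]

theorem norm_V (h g : G) (ξ : H₁) : ‖D.V h g ξ‖ = ‖ξ‖ := by
  have h1 : ⟪D.V h g ξ, D.V h g ξ⟫_ℂ = ⟪ξ, ξ⟫_ℂ := by
    rw [D.adj, D.RV, if_pos rfl]
  rw [inner_self_eq_norm_sq_to_K, inner_self_eq_norm_sq_to_K] at h1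
  have h2 : ‖D.V h g ξ‖ ^ 2 = ‖ξ‖ ^ 2 := by exact_mod_cast h1
  exact (sq_eq_sq₀ (norm_nonneg _) (norm_nonneg _)).1 h2

theorem norm_sum_V (g : G) (ζ : G → H₁) : ‖∑ k, D.V k g (ζ k)‖ ^ 2 = ∑ k, ‖ζ k‖ ^ 2 := by
  have h1 : ⟪∑ k, D.V k g (ζ k), ∑ k, D.V k g (ζ k)⟫_ℂ = ∑ k, ⟪ζ k, ζ k⟫_ℂ := by
    rw [sum_inner]
    refine Finset.sum_congr rfl fun k _ => ?_
    rw [D.adj, map_sum, inner_sum]
    rw [Finset.sum_eq_single k]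
    · rw [D.RV, if_pos rfl]
    · intro l _ hl
      rw [D.RV, if_neg (fun h => hl h.symm), inner_zero_right]
    · intro h
      exact absurd (Finset.mem_univ k) h
  have h2 : ((‖∑ k, D.V k g (ζ k)‖ ^ 2 : ℝ) : ℂ) = ((∑ k, ‖ζ k‖ ^ 2 : ℝ) : ℂ) := by
    rw [inner_self_eq_norm_sq_to_K] at h1
    push_cast
    rw [← Complex.coe_algebraMap, h1]
    refine Finset.sum_congr rfl fun k _ => ?_
    rw [inner_self_eq_norm_sq_to_K]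
  exact_mod_cast h2

theorem norm_sum_R (g : G) (ξ : H) : ∑ k, ‖D.R k g ξ‖ ^ 2 = ‖ξ‖ ^ 2 := by
  rw [← D.norm_sum_V g, D.tot]

theorem norm_R_le (h g : G) (ξ : H) : ‖D.R h g ξ‖ ≤ ‖ξ‖ := by
  have h1 : ‖D.R h g ξ‖ ^ 2 ≤ ‖ξ‖ ^ 2 := by
    rw [← D.norm_sum_R g ξ]
    exact Finset.single_le_sum (f := fun k => ‖D.R k g ξ‖ ^ 2) (fun _ _ => sq_nonneg _)
      (Finset.mem_univ h)
  exact (sq_le_sq₀ (norm_nonneg _) (norm_nonneg _)).1 h1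

theorem amp_id [Nonempty G] (x : 𝓜) : D.amp (LinearMap.id : 𝓜₁ →ₗ[ℂ] 𝓜₁) x = x := by
  apply Subtype.ext
  ext ξ
  rw [amp_apply]
  have h1 : ∀ g, ∑ h, ∑ k, D.V h g ((((LinearMap.id : 𝓜₁ →ₗ[ℂ] 𝓜₁) (D.cp g h k x) : 𝓜₁) :
      H₁ →L[ℂ] H₁) (D.R k g ξ)) = (x : H →L[ℂ] H) ξ := by
    intro g
    have h2 : ∀ h, ∑ k, D.V h g ((((LinearMap.id : 𝓜₁ →ₗ[ℂ] 𝓜₁) (D.cp g h k x) : 𝓜₁) :
        H₁ →L[ℂ] H₁) (D.R k g ξ)) = D.V h g (D.R h g ((x : H →L[ℂ] H) ξ)) := by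
      intro h
      simp only [LinearMap.id_apply, cp_apply]
      rw [← map_sum, ← map_sum, ← map_sum, D.tot]
    rw [Finset.sum_congr rfl fun h _ => h2 h, D.tot]
  rw [Finset.sum_congr rfl fun g _ => h1 g, Finset.sum_const, Finset.card_univ,
    ← Nat.cast_smul_eq_nsmul ℂ, smul_smul, inv_mul_cancel₀, one_smul]
  exact Nat.cast_ne_zero.2 Fintype.card_ne_zero

end Amp

end Pool.Agent.H26.SD
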