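import Pool.Agent.H26.SD.Amp

/-!
# Amplifications: complete positivity and complete boundedness
-/

set_option autoImplicit false

open scoped ComplexOrder InnerProductSpace
open Filter Topology

namespace Pool.Agent.H26.SD

open Pool.Agent.H73.HVN

universe u

section General

variable {H : Type u} [NormedAddCommGroup H] [InnerProductSpace ℂ H]
  {𝓜 : Subalgebra ℂ (H →L[ℂ] H)} {Φ : 𝓜 →ₗ[ℂ] 𝓜}

/-- complete positivity for arbitrary finite index types -/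
theorem cp_fintype (hΦ : IsCP 𝓜 Φ) {ι : Type*} [Fintype ι] (X : ι → ι → 𝓜)
    (hX : ∀ ξ : ι → H, 0 ≤ ∑ i, ∑ j, ⟪ξ i, (X i j : H →L[ℂ] H) (ξ j)⟫_ℂ) (ξ : ι → H) :
    0 ≤ ∑ i, ∑ j, ⟪ξ i, (Φ (X i j) : H →L[ℂ] H) (ξ j)⟫_ℂ := by
  set e := Fintype.equivFin ι with he
  have h1 := hΦ (Fintype.card ι) (fun i j => X (e.symm i) (e.symm j)) (fun ζ => by
    have h2 := hX (fun i => ζ (e i))
    rw [← e.symm.sum_comp] at h2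
    convert h2 using 1
    refine Finset.sum_congr rfl fun i _ => ?_
    rw [← e.symm.sum_comp]
    simp) (fun i => ξ (e.symm i))
  rw [← e.symm.sum_comp]
  convert h1 using 1
  refine Finset.sum_congr rfl fun i _ => ?_
  rw [← e.symm.sum_comp]

/-- complete boundedness for arbitrary finite index types -/
theorem cb_fintype {C : ℝ} (hΦ : CBNormLE 𝓜 Φ C) {ι : Type*} [Fintype ι] (X : ι → ι → 𝓜) (K : ℝ)
    (hX : ∀ ξ η : ι → H, ‖∑ i, ∑ j, ⟪η i, (X i j : H →L[ℂ] H) (ξ j)⟫_ℂ‖ ≤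
      K * (√(∑ j, ‖ξ j‖ ^ 2) * √(∑ i, ‖η i‖ ^ 2))) (ξ η : ι → H) :
    ‖∑ i, ∑ j, ⟪η i, (Φ (X i j) : H →L[ℂ] H) (ξ j)⟫_ℂ‖ ≤
      C * K * (√(∑ j, ‖ξ j‖ ^ 2) * √(∑ i, ‖η i‖ ^ 2)) := by
  set e := Fintype.equivFin ι with he
  have hs : ∀ ζ : ι → H, ∑ j, ‖ζ j‖ ^ 2 = ∑ j, ‖ζ (e.symm j)‖ ^ 2 := fun ζ =>
    (e.symm.sum_comp (fun j => ‖ζ j‖ ^ 2)).symm
  have hd : ∀ (Y : ι → ι → H →L[ℂ] H) (ζ θ : ι → H), ∑ i, ∑ j, ⟪θ i, Y i j (ζ j)⟫_ℂ =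
      ∑ i, ∑ j, ⟪θ (e.symm i), Y (e.symm i) (e.symm j) (ζ (e.symm j))⟫_ℂ := by
    intro Y ζ θ
    rw [← e.symm.sum_comp]
    refine Finset.sum_congr rfl fun i _ => ?_
    rw [← e.symm.sum_comp]
  have h1 := hΦ (Fintype.card ι) (fun i j => X (e.symm i) (e.symm j)) K (fun ζ θ => by
    have h2 := hX (fun i => ζ (e i)) (fun i => θ (e i))
    rw [hs, hs (fun i => θ (e i)), hd (fun i j => (X i j : H →L[ℂ] H))] at h2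
    simpa using h2) (fun i => ξ (e.symm i)) (fun i => η (e.symm i))
  rw [hs ξ, hs η, hd (fun i j => (Φ (X i j) : H →L[ℂ] H))]
  exact h1

end General

variable {H H₁ : Type u} [NormedAddCommGroup H] [InnerProductSpace ℂ H]
  [NormedAddCommGroup H₁] [InnerProductSpace ℂ H₁]
variable {𝓜 : Subalgebra ℂ (H →L[ℂ] H)} {𝓜₁ : Subalgebra ℂ (H₁ →L[ℂ] H₁)} {Ω : H} {Ω₁ : H₁}
  {G : Type u} [Fintype G] [DecidableEq G]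

namespace Amp

variable (D : Amp 𝓜 𝓜₁ Ω Ω₁ G)

/-- the double sum over pairs -/
theorem inner_cp (g : G) {n : ℕ} (X : Fin n → Fin n → 𝓜) (ζ θ : Fin n × G → H₁) :
    ∑ p : Fin n × G, ∑ r : Fin n × G, ⟪θ p, (D.cp g p.2 r.2 (X p.1 r.1) : H₁ →L[ℂ] H₁) (ζ r)⟫_ℂ =
      ∑ i, ∑ j, ⟪∑ h, D.V h g (θ (i, h)), (X i j : H →L[ℂ] H) (∑ k, D.V k g (ζ (j, k)))⟫_ℂ := by
  rw [Fintype.sum_prod_type]
  refine Finset.sum_congr rfl fun i _ => ?_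
  have h1 : ∀ h : G, ∑ r : Fin n × G, ⟪θ (i, h), (D.cp g h r.2 (X i r.1) : H₁ →L[ℂ] H₁) (ζ r)⟫_ℂ =
      ∑ j, ⟪D.V h g (θ (i, h)), (X i j : H →L[ℂ] H) (∑ k, D.V k g (ζ (j, k)))⟫_ℂ := by
    intro h
    rw [Fintype.sum_prod_type]
    refine Finset.sum_congr rfl fun j _ => ?_
    rw [map_sum, inner_sum]
    refine Finset.sum_congr rfl fun k _ => ?_
    rw [cp_apply, D.adj]
  rw [Finset.sum_congr rfl fun h _ => h1 h, Finset.sum_comm]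
  refine Finset.sum_congr rfl fun j _ => ?_
  rw [sum_inner]

/-- the amplification in terms of pairs -/
theorem inner_amp_mat (Φ : 𝓜₁ →ₗ[ℂ] 𝓜₁) {n : ℕ} (X : Fin n → Fin n → 𝓜) (ξ η : Fin n → H) :
    ∑ i, ∑ j, ⟪η i, (D.amp Φ (X i j) : H →L[ℂ] H) (ξ j)⟫_ℂ = ((Fintype.card G : ℂ)⁻¹) *
      ∑ g, ∑ p : Fin n × G, ∑ r : Fin n × G, ⟪D.R p.2 g (η p.1),
        (Φ (D.cp g p.2 r.2 (X p.1 r.1)) : H₁ →L[ℂ] H₁) (D.R r.2 g (ξ r.1))⟫_ℂ := by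
  have h0 : ∀ g : G, ∑ p : Fin n × G, ∑ r : Fin n × G, ⟪D.R p.2 g (η p.1),
        (Φ (D.cp g p.2 r.2 (X p.1 r.1)) : H₁ →L[ℂ] H₁) (D.R r.2 g (ξ r.1))⟫_ℂ =
      ∑ i, ∑ j, ∑ h, ∑ k, ⟪D.R h g (η i),
        (Φ (D.cp g h k (X i j)) : H₁ →L[ℂ] H₁) (D.R k g (ξ j))⟫_ℂ := by
    intro g
    rw [Fintype.sum_prod_type]
    refine Finset.sum_congr rfl fun i _ => ?_
    have h1 : ∀ h : G, ∑ r : Fin n × G, ⟪D.R h g (η i),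
        (Φ (D.cp g h r.2 (X i r.1)) : H₁ →L[ℂ] H₁) (D.R r.2 g (ξ r.1))⟫_ℂ =
        ∑ j, ∑ k, ⟪D.R h g (η i), (Φ (D.cp g h k (X i j)) : H₁ →L[ℂ] H₁) (D.R k g (ξ j))⟫_ℂ :=
      fun h => Fintype.sum_prod_type _
    simp only [h1]
    rw [Finset.sum_comm]
  simp only [h0, D.inner_amp]
  conv_rhs => rw [Finset.sum_comm, Finset.mul_sum]
  refine Finset.sum_congr rfl fun i _ => ?_
  conv_rhs => rw [Finset.sum_comm, Finset.mul_sum]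

theorem isCP_amp {Φ : 𝓜₁ →ₗ[ℂ] 𝓜₁} (hΦ : IsCP 𝓜₁ Φ) : IsCP 𝓜 (D.amp Φ) := by
  intro n X hX ξ
  rw [D.inner_amp_mat]
  apply mul_nonneg
  · rw [inv_nonneg]
    exact Nat.cast_nonneg _
  · refine Finset.sum_nonneg fun g _ => ?_
    refine cp_fintype hΦ (fun p r : Fin n × G => D.cp g p.2 r.2 (X p.1 r.1)) (fun ζ => ?_)
      (fun p => D.R p.2 g (ξ p.1))
    rw [D.inner_cp]
    exact hX _

theorem sum_R_pair (g : G) {n : ℕ} (ξ : Fin n → H) :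
    ∑ p : Fin n × G, ‖D.R p.2 g (ξ p.1)‖ ^ 2 = ∑ i, ‖ξ i‖ ^ 2 := by
  rw [Fintype.sum_prod_type]
  exact Finset.sum_congr rfl fun i _ => D.norm_sum_R g (ξ i)

theorem sum_V_pair (g : G) {n : ℕ} (ζ : Fin n × G → H₁) :
    ∑ j, ‖∑ k, D.V k g (ζ (j, k))‖ ^ 2 = ∑ p, ‖ζ p‖ ^ 2 := by
  rw [Fintype.sum_prod_type]
  exact Finset.sum_congr rfl fun i _ => D.norm_sum_V g (fun k => ζ (i, k))

theorem cb_amp [Nonempty G] {Φ : 𝓜₁ →ₗ[ℂ] 𝓜₁} {C : ℝ} (hΦ : CBNormLE 𝓜₁ Φ C) :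
    CBNormLE 𝓜 (D.amp Φ) C := by
  intro n X K hX ξ η
  rw [D.inner_amp_mat, norm_mul, norm_inv, Complex.norm_natCast]
  have h1 : ∀ g : G, ‖∑ p : Fin n × G, ∑ r : Fin n × G, ⟪D.R p.2 g (η p.1),
        (Φ (D.cp g p.2 r.2 (X p.1 r.1)) : H₁ →L[ℂ] H₁) (D.R r.2 g (ξ r.1))⟫_ℂ‖ ≤
      C * K * (√(∑ j, ‖ξ j‖ ^ 2) * √(∑ i, ‖η i‖ ^ 2)) := by
    intro g
    have h2 := cb_fintype hΦ (fun p r : Fin n × G => D.cp g p.2 r.2 (X p.1 r.1)) K (fun ζ θ => by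
      rw [D.inner_cp, ← D.sum_V_pair g ζ, ← D.sum_V_pair g θ]
      exact hX _ _) (fun p => D.R p.2 g (ξ p.1)) (fun p => D.R p.2 g (η p.1))
    rw [D.sum_R_pair, D.sum_R_pair] at h2
    exact h2
  have h3 : ‖∑ g, ∑ p : Fin n × G, ∑ r : Fin n × G, ⟪D.R p.2 g (η p.1),
        (Φ (D.cp g p.2 r.2 (X p.1 r.1)) : H₁ →L[ℂ] H₁) (D.R r.2 g (ξ r.1))⟫_ℂ‖ ≤
      (Fintype.card G : ℝ) * (C * K * (√(∑ j, ‖ξ j‖ ^ 2) * √(∑ i, ‖η i‖ ^ 2))) := by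
    refine (norm_sum_le _ _).trans ((Finset.sum_le_sum fun g _ => h1 g).trans (le_of_eq ?_))
    rw [Finset.sum_const, Finset.card_univ, nsmul_eq_mul]
  have h4 : (0 : ℝ) < (Fintype.card G : ℝ) := Nat.cast_pos.2 Fintype.card_pos
  rw [inv_mul_le_iff₀ h4]
  exact h3

end Amp

end Pool.Agent.H26.SD
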