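import Pool.Agent.H26.SD.Amp2

/-!
# Amplifications: normality, and the transfer of the two approximation properties
-/

set_option autoImplicit false

open scoped ComplexOrder InnerProductSpace
open Filter Topology

namespace Pool.Agent.H26.SD

open Pool.Agent.H73.HVN

universe u

section Normal

variable {H : Type u} [NormedAddCommGroup H] [InnerProductSpace ℂ H]
  {𝓜 : Subalgebra ℂ (H →L[ℂ] H)}

theorem summable_pair {ι : Type u} {ξ η : ι → H} (hξ : Summable fun i => ‖ξ i‖ ^ 2)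
    (hη : Summable fun i => ‖η i‖ ^ 2) (x : H →L[ℂ] H) :
    Summable fun i => ⟪η i, x (ξ i)⟫_ℂ := by
  refine Summable.of_norm_bounded (g := fun i => ‖x‖ * (‖ξ i‖ ^ 2 + ‖η i‖ ^ 2))
    ((hξ.add hη).mul_left _) fun i => ?_
  have h1 : ‖⟪η i, x (ξ i)⟫_ℂ‖ ≤ ‖η i‖ * ‖x (ξ i)‖ := norm_inner_le_norm _ _
  have h2 : ‖x (ξ i)‖ ≤ ‖x‖ * ‖ξ i‖ := x.le_opNorm _
  have h3 : ‖η i‖ * ‖x (ξ i)‖ ≤ ‖η i‖ * (‖x‖ * ‖ξ i‖) :=
    mul_le_mul_of_nonneg_left h2 (norm_nonneg _)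
  have h4 : ‖ξ i‖ * ‖η i‖ ≤ ‖ξ i‖ ^ 2 + ‖η i‖ ^ 2 := by
    nlinarith [sq_nonneg (‖ξ i‖ - ‖η i‖), sq_nonneg (‖ξ i‖), sq_nonneg (‖η i‖)]
  have h5 : ‖η i‖ * (‖x‖ * ‖ξ i‖) ≤ ‖x‖ * (‖ξ i‖ ^ 2 + ‖η i‖ ^ 2) := by
    have := mul_le_mul_of_nonneg_left h4 (norm_nonneg x)
    linarith
  linarith

theorem normal_zero : IsNormalFunctional 𝓜 (fun _ => 0) :=
  ⟨PEmpty, fun i => i.elim, fun i => i.elim, summable_empty, summable_empty, fun x => by simp⟩

theorem normal_add {φ ψ : 𝓜 → ℂ} (hφ : IsNormalFunctional 𝓜 φ)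
    (hψ : IsNormalFunctional 𝓜 ψ) : IsNormalFunctional 𝓜 (fun x => φ x + ψ x) := by
  obtain ⟨ι, ξ, η, h1, h2, h3⟩ := hφ
  obtain ⟨ι', ξ', η', h1', h2', h3'⟩ := hψ
  refine ⟨ι ⊕ ι', Sum.elim ξ ξ', Sum.elim η η', ?_, ?_, ?_⟩
  · have a : HasSum (fun i : ι ⊕ ι' => ‖Sum.elim ξ ξ' i‖ ^ 2) _ :=
      HasSum.sum (f := fun i : ι ⊕ ι' => ‖Sum.elim ξ ξ' i‖ ^ 2) h1.hasSum h1'.hasSum
    exact a.summable
  · have a : HasSum (fun i : ι ⊕ ι' => ‖Sum.elim η η' i‖ ^ 2) _ :=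
      HasSum.sum (f := fun i : ι ⊕ ι' => ‖Sum.elim η η' i‖ ^ 2) h2.hasSum h2'.hasSum
    exact a.summable
  · intro x
    have c1 : HasSum (fun i => ⟪η i, (x : H →L[ℂ] H) (ξ i)⟫_ℂ) (φ x) := by
      rw [h3]
      exact (summable_pair h1 h2 _).hasSum
    have c2 : HasSum (fun i => ⟪η' i, (x : H →L[ℂ] H) (ξ' i)⟫_ℂ) (ψ x) := by
      rw [h3']
      exact (summable_pair h1' h2' _).hasSum
    have a : HasSum (fun i : ι ⊕ ι' => ⟪Sum.elim η η' i,
        (x : H →L[ℂ] H) (Sum.elim ξ ξ' i)⟫_ℂ) (φ x + ψ x) :=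
      HasSum.sum (f := fun i : ι ⊕ ι' => ⟪Sum.elim η η' i,
        (x : H →L[ℂ] H) (Sum.elim ξ ξ' i)⟫_ℂ) c1 c2
    rw [a.tsum_eq]

theorem normal_mul {φ : 𝓜 → ℂ} (hφ : IsNormalFunctional 𝓜 φ) (c : ℂ) :
    IsNormalFunctional 𝓜 (fun x => c * φ x) := by
  obtain ⟨ι, ξ, η, h1, h2, h3⟩ := hφ
  refine ⟨ι, fun i => c • ξ i, η, ?_, h2, fun x => ?_⟩
  · simp only [norm_smul, mul_pow]
    exact h1.mul_left _
  · change c * φ x = _
    rw [h3, ← tsum_mul_left]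
    refine tsum_congr fun i => ?_
    rw [map_smul, inner_smul_right]

theorem normal_sum {κ : Type*} (s : Finset κ) {φ : κ → 𝓜 → ℂ}
    (hφ : ∀ k, IsNormalFunctional 𝓜 (φ k)) : IsNormalFunctional 𝓜 (fun x => ∑ k ∈ s, φ k x) := by
  classical
  induction s using Finset.induction_on with
  | empty => simpa using normal_zero
  | insert a s ha ih =>
    simp only [Finset.sum_insert ha]
    exact normal_add (hφ a) ih

end Normal

variable {H H₁ : Type u} [NormedAddCommGroup H] [InnerProductSpace ℂ H]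
  [NormedAddCommGroup H₁] [InnerProductSpace ℂ H₁]
variable {𝓜 : Subalgebra ℂ (H →L[ℂ] H)} {𝓜₁ : Subalgebra ℂ (H₁ →L[ℂ] H₁)} {Ω : H} {Ω₁ : H₁}
  {G : Type u} [Fintype G] [DecidableEq G]

namespace Amp

variable (D : Amp 𝓜 𝓜₁ Ω Ω₁ G)

/-- a normal functional of the entries -/
theorem normal_cp {ψ : 𝓜₁ → ℂ} (hψ : IsNormalFunctional 𝓜₁ ψ) (g h k : G) :
    IsNormalFunctional 𝓜 (fun x => ψ (D.cp g h k x)) := by
  obtain ⟨ι, ξ, η, h1, h2, h3⟩ := hψ
  refine ⟨ι, fun i => D.V k g (ξ i), fun i => D.V h g (η i), ?_, ?_, fun x => ?_⟩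
  · simpa only [D.norm_V] using h1
  · simpa only [D.norm_V] using h2
  · change ψ (D.cp g h k x) = _
    rw [h3]
    refine tsum_congr fun i => ?_
    rw [cp_apply, D.adj]

/-- the normal functionals `b ↦ ∑ ⟨b R ξ, R η⟩` -/
theorem exists_psi {φ : 𝓜 → ℂ} (hφ : IsNormalFunctional 𝓜 φ) :
    ∃ ψ : G → G → G → 𝓜₁ → ℂ, (∀ g h k, IsNormalFunctional 𝓜₁ (ψ g h k)) ∧
      ∀ (Φ : 𝓜₁ →ₗ[ℂ] 𝓜₁) (x : 𝓜), φ (D.amp Φ x) = ((Fintype.card G : ℂ)⁻¹) *
        ∑ g, ∑ h, ∑ k, ψ g h k (Φ (D.cp g h k x)) := by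
  obtain ⟨ι, ξ, η, h1, h2, h3⟩ := hφ
  have s1 : ∀ g k, Summable (fun i => ‖D.R k g (ξ i)‖ ^ 2) := fun g k =>
    Summable.of_nonneg_of_le (fun i => sq_nonneg _)
      (fun i => pow_le_pow_left₀ (norm_nonneg _) (D.norm_R_le k g _) 2) h1
  have s2 : ∀ g k, Summable (fun i => ‖D.R k g (η i)‖ ^ 2) := fun g k =>
    Summable.of_nonneg_of_le (fun i => sq_nonneg _)
      (fun i => pow_le_pow_left₀ (norm_nonneg _) (D.norm_R_le k g _) 2) h2
  refine ⟨fun g h k b => ∑' i, ⟪D.R h g (η i), (b : H₁ →L[ℂ] H₁) (D.R k g (ξ i))⟫_ℂ,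
    fun g h k => ⟨ι, fun i => D.R k g (ξ i), fun i => D.R h g (η i), s1 g k, s2 g h,
      fun x => rfl⟩, fun Φ x => ?_⟩
  rw [h3]
  simp only [D.inner_amp]
  rw [tsum_mul_left]
  congr 1
  have hs : ∀ g h k, Summable (fun i => ⟪D.R h g (η i),
      (Φ (D.cp g h k x) : H₁ →L[ℂ] H₁) (D.R k g (ξ i))⟫_ℂ) := fun g h k =>
    summable_pair (s1 g k) (s2 g h) _
  rw [Summable.tsum_finsetSum (fun g _ => summable_sum fun h _ => summable_sum fun k _ => hs g h k)]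
  refine Finset.sum_congr rfl fun g _ => ?_
  rw [Summable.tsum_finsetSum (fun h _ => summable_sum fun k _ => hs g h k)]
  refine Finset.sum_congr rfl fun h _ => ?_
  rw [Summable.tsum_finsetSum (fun k _ => hs g h k)]

theorem normal_amp {Φ : 𝓜₁ →ₗ[ℂ] 𝓜₁} (hΦ : IsNormalMap 𝓜₁ Φ) : IsNormalMap 𝓜 (D.amp Φ) := by
  intro φ hφ
  obtain ⟨ψ, h1, h2⟩ := D.exists_psi hφ
  simp only [h2]
  refine normal_mul (normal_sum _ fun g => normal_sum _ fun h => normal_sum _ fun k => ?_) _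
  exact D.normal_cp (hΦ _ (h1 g h k)) g h k

theorem tendsto_weak_amp [Nonempty G] {ι : Type u} {l : Filter ι} {Φ : ι → (𝓜₁ →ₗ[ℂ] 𝓜₁)}
    (h : ∀ (x : 𝓜₁) (φ : 𝓜₁ → ℂ), IsNormalFunctional 𝓜₁ φ →
      Tendsto (fun i => φ (Φ i x)) l (𝓝 (φ x))) (x : 𝓜) (φ : 𝓜 → ℂ)
    (hφ : IsNormalFunctional 𝓜 φ) : Tendsto (fun i => φ (D.amp (Φ i) x)) l (𝓝 (φ x)) := by
  obtain ⟨ψ, h1, h2⟩ := D.exists_psi hφ
  have h3 : φ x = ((Fintype.card G : ℂ)⁻¹) * ∑ g, ∑ h, ∑ k, ψ g h k (D.cp g h k x) := by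
    rw [← D.amp_id x, h2]
    simp only [D.amp_id, LinearMap.id_apply]
  simp only [h2]
  rw [h3]
  refine Tendsto.const_mul _ ?_
  refine tendsto_finsetSum _ fun g _ => tendsto_finsetSum _ fun h' _ =>
    tendsto_finsetSum _ fun k _ => ?_
  exact h _ _ (h1 g h' k)

/-- `b ↦ V b R` -/
noncomputable def sw (g h k : G) : 𝓜₁ →ₗ[ℂ] (H →L[ℂ] H) where
  toFun b := D.V h g ∘L ((b : H₁ →L[ℂ] H₁) ∘L D.R k g)
  map_add' x y := by
    ext ξ
    simp
  map_smul' c x := by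
    ext ξ
    simp

theorem val_amp (Φ : 𝓜₁ →ₗ[ℂ] 𝓜₁) (x : 𝓜) : (D.amp Φ x : H →L[ℂ] H) =
    ((Fintype.card G : ℂ)⁻¹) • ∑ g, ∑ h, ∑ k, D.sw g h k (Φ (D.cp g h k x)) := rfl

theorem finrank_amp {Φ : 𝓜₁ →ₗ[ℂ] 𝓜₁} (hΦ : FiniteDimensional ℂ (LinearMap.range Φ)) :
    FiniteDimensional ℂ (LinearMap.range (D.amp Φ)) := by
  let N : Submodule ℂ (H →L[ℂ] H) :=
    ⨆ t : G × G × G, (LinearMap.range Φ).map (D.sw t.1 t.2.1 t.2.2)
  have h1 : ∀ t : G × G × G, FiniteDimensional ℂ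
      ((LinearMap.range Φ).map (D.sw t.1 t.2.1 t.2.2)) := fun t => inferInstance
  have hN : FiniteDimensional ℂ N := Submodule.finiteDimensional_iSup _
  have h2 : ∀ x : 𝓜, (D.amp Φ x : H →L[ℂ] H) ∈ N := by
    intro x
    rw [val_amp]
    refine N.smul_mem _ (N.sum_mem fun g _ => N.sum_mem fun h _ => N.sum_mem fun k _ => ?_)
    exact Submodule.mem_iSup_of_mem (g, h, k)
      (Submodule.mem_map_of_mem (LinearMap.mem_range_self Φ _))
  let f : LinearMap.range (D.amp Φ) →ₗ[ℂ] N :=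
    { toFun := fun y => ⟨((y : 𝓜) : H →L[ℂ] H), by
        obtain ⟨y, x, rfl⟩ := y
        exact h2 x⟩
      map_add' := fun _ _ => rfl
      map_smul' := fun _ _ => rfl }
  refine FiniteDimensional.of_injective f fun y z hyz => ?_
  apply Subtype.ext
  apply Subtype.ext
  exact congrArg (fun w : N => (w : H →L[ℂ] H)) hyz

include D in
/-- transfer of the weak-* CBAP -/
theorem cbap [Nonempty G] {C : ℝ} (h : HasWeakStarCBAP 𝓜₁ C) : HasWeakStarCBAP 𝓜 C := by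
  obtain ⟨ι, i1, i2, i3, Φ, h1, h2⟩ := h
  refine ⟨ι, i1, i2, i3, fun i => D.amp (Φ i), fun i => ?_, fun x φ hφ => ?_⟩
  · exact ⟨D.normal_amp (h1 i).1, D.finrank_amp (h1 i).2.1, D.cb_amp (h1 i).2.2⟩
  · exact D.tendsto_weak_amp h2 x φ hφ

/-- the index `h` with `V h g Ω₁ = Ω` -/
noncomputable def hh (g : G) : G := (D.om g).choose

theorem V_hh (g : G) : D.V (D.hh g) g Ω₁ = Ω := (D.om g).choose_spec

theorem R_om (h g : G) : D.R h g Ω = if h = D.hh g then Ω₁ else 0 := by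
  have h1 := D.RV g h (D.hh g) Ω₁
  rw [D.V_hh] at h1
  exact h1

theorem cp_om (g h : G) (x : 𝓜) : (D.cp g h (D.hh g) x : H₁ →L[ℂ] H₁) Ω₁ =
    D.R h g ((x : H →L[ℂ] H) Ω) := by
  rw [cp_apply, V_hh]

theorem amp_om (Φ : 𝓜₁ →ₗ[ℂ] 𝓜₁) (x : 𝓜) :
    (D.amp Φ x : H →L[ℂ] H) Ω = ((Fintype.card G : ℂ)⁻¹) •
      ∑ g, ∑ h, D.V h g ((Φ (D.cp g h (D.hh g) x) : H₁ →L[ℂ] H₁) Ω₁) := by
  rw [amp_apply]
  congr 1
  refine Finset.sum_congr rfl fun g _ => Finset.sum_congr rfl fun h _ => ?_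
  rw [Finset.sum_eq_single (D.hh g)]
  · rw [R_om, if_pos rfl]
  · intro k _ hk
    rw [R_om, if_neg hk, map_zero, map_zero]
  · intro h'
    exact absurd (Finset.mem_univ _) h'

include D in
/-- transfer of the Haagerup property -/
theorem haagerup [Nonempty G] (h : HasHaagerupProperty 𝓜₁ Ω₁) : HasHaagerupProperty 𝓜 Ω := by
  obtain ⟨ι, i1, i2, i3, Φ, h1, h2⟩ := h
  refine ⟨ι, i1, i2, i3, fun i => D.amp (Φ i), fun i => ?_, fun x => ?_⟩
  · obtain ⟨a1, a2, a3, K, hK, a4⟩ := h1 i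
    refine ⟨D.normal_amp a1, D.isCP_amp a2, fun x hx => ?_, ?_⟩
    · rw [D.inner_amp]
      have b1 : ∀ g, ∑ h, ∑ k, ⟪D.R h g Ω, (Φ i (D.cp g h k x) : H₁ →L[ℂ] H₁) (D.R k g Ω)⟫_ℂ ≤
          ⟪Ω, (x : H →L[ℂ] H) Ω⟫_ℂ := by
        intro g
        rw [Finset.sum_eq_single (D.hh g)]
        · rw [Finset.sum_eq_single (D.hh g)]
          · rw [R_om, if_pos rfl]
            refine (a3 (D.cp g (D.hh g) (D.hh g) x) (fun ξ => ?_)).trans (le_of_eq ?_)
            · rw [cp_apply, ← D.adj]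
              exact hx _
            · rw [cp_apply, ← D.adj, V_hh]
          · intro k _ hk
            rw [R_om, R_om, if_neg hk, map_zero, inner_zero_right]
          · intro h'
            exact absurd (Finset.mem_univ _) h'
        · intro h _ hh'
          refine Finset.sum_eq_zero fun k _ => ?_
          rw [R_om, if_neg hh', inner_zero_left]
        · intro h'
          exact absurd (Finset.mem_univ _) h'
      have b2 : ∑ g, ∑ h, ∑ k, ⟪D.R h g Ω, (Φ i (D.cp g h k x) : H₁ →L[ℂ] H₁) (D.R k g Ω)⟫_ℂ ≤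
          (Fintype.card G : ℂ) * ⟪Ω, (x : H →L[ℂ] H) Ω⟫_ℂ := by
        refine (Finset.sum_le_sum fun g _ => b1 g).trans (le_of_eq ?_)
        rw [Finset.sum_const, Finset.card_univ, nsmul_eq_mul]
      have b3 : (0 : ℂ) ≤ (Fintype.card G : ℂ)⁻¹ := by
        rw [inv_nonneg]
        exact Nat.cast_nonneg _
      refine (mul_le_mul_of_nonneg_left b2 b3).trans (le_of_eq ?_)
      rw [← mul_assoc, inv_mul_cancel₀ (Nat.cast_ne_zero.2 Fintype.card_ne_zero), one_mul]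
    · refine ⟨((Fintype.card G : ℂ)⁻¹) • ∑ g, ∑ h, D.V h g ∘L (K ∘L D.R h g), ?_, fun x => ?_⟩
      · have c1 : ∀ g h, IsCompactOperator (D.V h g ∘L (K ∘L D.R h g)) := fun g h =>
          (hK.comp_clm (D.R h g)).clm_comp (D.V h g)
        have c2 : ∀ (s : Finset G) (g : G), IsCompactOperator
            (∑ h ∈ s, D.V h g ∘L (K ∘L D.R h g) : H →L[ℂ] H) := by
          intro s g
          induction s using Finset.induction_on with
          | empty =>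
            rw [Finset.sum_empty]
            exact isCompactOperator_zero
          | insert a s ha ih =>
            rw [Finset.sum_insert ha]
            exact (c1 g a).add ih
        have c3 : ∀ (s : Finset G), IsCompactOperator
            (∑ g ∈ s, ∑ h, D.V h g ∘L (K ∘L D.R h g) : H →L[ℂ] H) := by
          intro s
          induction s using Finset.induction_on with
          | empty =>
            rw [Finset.sum_empty]
            exact isCompactOperator_zero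
          | insert a s ha ih =>
            rw [Finset.sum_insert ha]
            exact (c2 _ a).add ih
        exact (c3 Finset.univ).smul _
      · rw [amp_om]
        rw [ContinuousLinearMap.smul_apply, ContinuousLinearMap.sum_apply]
        congr 1
        refine Finset.sum_congr rfl fun g _ => ?_
        rw [ContinuousLinearMap.sum_apply]
        refine Finset.sum_congr rfl fun h _ => ?_
        rw [a4, cp_om]
        rfl
  · have d1 : Tendsto (fun i => (D.amp (Φ i) x : H →L[ℂ] H) Ω) atTop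
        (𝓝 ((x : H →L[ℂ] H) Ω)) := by
      have d2 : (x : H →L[ℂ] H) Ω = ((Fintype.card G : ℂ)⁻¹) •
          ∑ g, ∑ h, D.V h g ((D.cp g h (D.hh g) x : H₁ →L[ℂ] H₁) Ω₁) := by
        have d3 := D.amp_om LinearMap.id x
        rw [D.amp_id x] at d3
        exact d3
      simp only [amp_om]
      rw [d2]
      refine Tendsto.const_smul ?_ _
      refine tendsto_finsetSum _ fun g _ => tendsto_finsetSum _ fun h _ => ?_
      have d4 := h2 (D.cp g h (D.hh g) x)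
      have d5 : Tendsto (fun i => (Φ i (D.cp g h (D.hh g) x) : H₁ →L[ℂ] H₁) Ω₁) atTop
          (𝓝 ((D.cp g h (D.hh g) x : H₁ →L[ℂ] H₁) Ω₁)) := tendsto_iff_norm_sub_tendsto_zero.2 d4
      exact ((D.V h g).continuous.tendsto _).comp d5
    exact tendsto_iff_norm_sub_tendsto_zero.1 d1

end Amp

end Pool.Agent.H26.SD
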