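import Pool.Agent.H73.HVN.OpBasic

/-!
# The isometry `ℓ²(X) → ℓ²(Y)` of an injective map
-/

set_option autoImplicit false

open scoped ComplexOrder InnerProductSpace
open Filter Topology

namespace Pool.Agent.H26.SD

open Pool.Agent.H73.HVN

universe u

variable {X Y : Type u}

private theorem emb_summable {f : X → Y} (hf : Function.Injective f) (ξ : L2 Y) :
    Summable (fun x => ‖ξ (f x)‖ ^ 2) ∧ ∑' x, ‖ξ (f x)‖ ^ 2 ≤ ‖ξ‖ ^ 2 := by
  have h1 := hasSum_normsq ξ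
  have h2 : Summable (fun x => ‖ξ (f x)‖ ^ 2) := h1.summable.comp_injective hf
  refine ⟨h2, ?_⟩
  rw [← h1.tsum_eq]
  exact h2.tsum_le_tsum_of_inj f hf (fun _ _ => sq_nonneg _) (fun _ => le_rfl) h1.summable

/-- the restriction map `(res f ξ)(x) = ξ(f x)` -/
theorem exists_res {f : X → Y} (hf : Function.Injective f) :
    ∃ A : L2 Y →L[ℂ] L2 X, ∀ (ξ : L2 Y) (x : X), A ξ x = ξ (f x) := by
  have hmem : ∀ ξ : L2 Y, Memℓp (fun x => ξ (f x)) 2 := by
    intro ξ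
    refine memℓp_gen ?_
    have h := (emb_summable hf ξ).1
    simpa only [ENNReal.toReal_ofNat, Real.rpow_ofNat] using h
  let A : L2 Y →ₗ[ℂ] L2 X :=
    { toFun := fun ξ => ⟨fun x => ξ (f x), hmem ξ⟩
      map_add' := by
        intro ξ η
        apply lp.ext
        funext x
        change (ξ + η) (f x) = ξ (f x) + η (f x)
        rw [lp.coeFn_add, Pi.add_apply]
      map_smul' := by
        intro c ξ
        apply lp.ext
        funext x
        change (c • ξ) (f x) = c * ξ (f x)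
        rw [lp.coeFn_smul, Pi.smul_apply, smul_eq_mul] }
  refine ⟨A.mkContinuous 1 ?_, fun ξ x => rfl⟩
  intro ξ
  refine lp.norm_le_of_tsum_le (p := 2) (by norm_num) (by positivity) ?_
  have h := (emb_summable hf ξ).2
  have h2 : ∑' x, ‖(A ξ : X → ℂ) x‖ ^ (2 : ENNReal).toReal = ∑' x, ‖ξ (f x)‖ ^ 2 := by
    refine tsum_congr fun x => ?_
    rw [ENNReal.toReal_ofNat, Real.rpow_ofNat]
    rfl
  rw [h2]
  refine h.trans (le_of_eq ?_)
  rw [ENNReal.toReal_ofNat, Real.rpow_ofNat, one_mul]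

/-- the isometry `δ_x ↦ δ_(f x)` together with its adjoint -/
theorem exists_emb {f : X → Y} (hf : Function.Injective f) :
    ∃ (J : L2 X →L[ℂ] L2 Y) (R : L2 Y →L[ℂ] L2 X), (∀ x, J (δ x) = δ (f x)) ∧
      (∀ (ξ : L2 Y) (x : X), R ξ x = ξ (f x)) ∧
      (∀ (ξ : L2 X) (η : L2 Y), ⟪J ξ, η⟫_ℂ = ⟪ξ, R η⟫_ℂ) ∧
      (∀ (ξ : L2 X) (x : X), J ξ (f x) = ξ x) ∧
      (∀ (ξ : L2 X) (y : Y), (∀ x, f x ≠ y) → J ξ y = 0) := by
  obtain ⟨R, hR⟩ := exists_res hf
  set J : L2 X →L[ℂ] L2 Y := R.adjoint with hJ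
  have hadj : ∀ (ξ : L2 X) (η : L2 Y), ⟪J ξ, η⟫_ℂ = ⟪ξ, R η⟫_ℂ := fun ξ η =>
    ContinuousLinearMap.adjoint_inner_left R η ξ
  have hval : ∀ (ξ : L2 X) (y : Y), J ξ y = ⟪R (δ y), ξ⟫_ℂ := by
    intro ξ y
    rw [← inner_δ y (J ξ), ← inner_conj_symm, hadj, inner_conj_symm]
  have hRδ : ∀ x, R (δ (f x)) = δ x := by
    intro x
    apply lp.ext
    funext z
    rw [hR]
    by_cases h : z = x
    · rw [h, δ_self, δ_self]
    · rw [δ_ne h, δ_ne (fun h' => h (hf h'))]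
  have hRδ0 : ∀ y, (∀ x, f x ≠ y) → R (δ y) = 0 := by
    intro y hy
    apply lp.ext
    funext z
    rw [hR, δ_ne (hy z)]
    rfl
  refine ⟨J, R, ?_, hR, hadj, ?_, ?_⟩
  · intro x
    apply lp.ext
    funext y
    rw [hval]
    by_cases h : ∃ z, f z = y
    · obtain ⟨z, rfl⟩ := h
      rw [hRδ, inner_δ]
      by_cases h : z = x
      · rw [h, δ_self, δ_self]
      · rw [δ_ne h, δ_ne (fun h' => h (hf h'))]
    · push Not at h
      rw [hRδ0 y h, inner_zero_left, δ_ne (fun h' => h x h'.symm)]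
  · intro ξ x
    rw [hval, hRδ, inner_δ]
  · intro ξ y hy
    rw [hval, hRδ0 y hy, inner_zero_left]

end Pool.Agent.H26.SD
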