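import Pool.Agent.H26.SD.Par
import Pool.Agent.H26.SD.Emb
import Pool.Agent.H26.SD.Amp3

/-!
# The Hecke-von Neumann algebra of `W = W₁ ⋊ W_L` for `q = 1` on `L`
-/

set_option autoImplicit false

open scoped ComplexOrder InnerProductSpace
open Filter Topology

namespace Pool.Agent.H26.SD

open Pool.Agent.H73.HVN

universe u v

variable {B : Type v} {W : Type u} [Group W] {M : CoxeterMatrix B} (cs : CoxeterSystem M W)
variable {L : Set B}

theorem pp_one {q : B → ℝ} {i : B} (h : q i = 1) : pp q i = 0 := by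
  unfold pp
  rw [h, Real.sqrt_one, inv_one, sub_self]

theorem pr_one {q : B → ℝ} {i : B} (h : q i = 1) (w : W) : pr cs q i w = 0 := by
  unfold pr
  rw [pp_one h]
  simp

/-- kernels in the algebra are invariant under `W_L` -/
theorem CC_inv {q : B → ℝ} (hL : ∀ i ∈ L, q i = 1) {X : W → W → ℂ} (hX : ∀ i, CC cs q X i)
    {g : W} (hg : g ∈ WP cs L) : ∀ z y, X (z * g) (y * g) = X z y := by
  induction hg using Subgroup.closure_induction with
  | mem x hx =>
    obtain ⟨i, hi, rfl⟩ := hx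
    intro z y
    have h1 := hX i (z * cs.simple i) y
    rw [pr_one cs (hL i hi), pr_one cs (hL i hi), zero_mul, add_zero, add_zero] at h1
    rw [h1, mul_assoc, cs.simple_mul_simple_self, mul_one]
  | one => intro z y; rw [mul_one, mul_one]
  | mul x y hx hy ihx ihy =>
    intro z w
    rw [← mul_assoc, ← mul_assoc, ihy, ihx]
  | inv x hx ihx =>
    intro z w
    have h1 := ihx (z * x⁻¹) (w * x⁻¹)
    rw [inv_mul_cancel_right, inv_mul_cancel_right] at h1
    exact h1.symm

theorem pr_eq {q : B → ℝ} (hq : Admissible cs q) (hE : ∀ i, i ∉ L → ∀ j ∈ L, Even (M i j))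
    {k g : W} (hk : k ∈ WP cs L) (hg : g ∈ WP cs L) (x : W1 cs L) {i : B} (hi : i ∉ L)
    (a : Rf cs L) (ha : (a : W) = g * cs.simple i * g⁻¹) :
    pr cs q i (k * pi1 cs L x * g) = pr (cs1 cs L) (q1 cs L q) a x := by
  unfold pr
  have h1 := descent_iff cs hE hk hg x hi a ha
  have h2 : pp q i = pp (q1 cs L q) a := by
    unfold pp
    rw [q1_eq cs L hq a ha]
  by_cases h : cs.IsRightDescent (k * pi1 cs L x * g) i
  · rw [if_pos h, if_pos (h1.1 h), h2]
  · rw [if_neg h, if_neg (fun h' => h (h1.2 h'))]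

/-- restriction of a kernel to a pair of cosets -/
theorem CC_res {q : B → ℝ} (hq : Admissible cs q) (hE : ∀ i, i ∉ L → ∀ j ∈ L, Even (M i j))
    (hL : ∀ i ∈ L, q i = 1) {X : W → W → ℂ} (hX : ∀ i, CC cs q X i) {h k g : W}
    (hh : h ∈ WP cs L) (hk : k ∈ WP cs L) (hg : g ∈ WP cs L) (a : Rf cs L) :
    CC (cs1 cs L) (q1 cs L q) (fun z y => X (h * pi1 cs L z * g) (k * pi1 cs L y * g)) a := by
  obtain ⟨a, g', hg', i, hi, rfl⟩ := a
  intro z y
  set a : Rf cs L := ⟨g' * cs.simple i * g'⁻¹, _⟩ with ha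
  have hg2 : g⁻¹ * g' ∈ WP cs L := mul_mem (inv_mem hg) hg'
  have h1 := hX i (h * pi1 cs L z * g') (k * pi1 cs L y * g')
  rw [pr_eq cs hq hE hk hg' y hi a rfl, pr_eq cs hq hE hh hg' z hi a rfl] at h1
  have e1 : ∀ u : W, u * g * (g⁻¹ * g') = u * g' := fun u => by group
  have e2 : ∀ u v : W, X (u * g') (v * g') = X (u * g) (v * g) := by
    intro u v
    rw [← CC_inv cs hL hX hg2 (u * g) (v * g), e1, e1]
  have e3 : ∀ x : W1 cs L, pi1 cs L (x * (cs1 cs L).simple a) =
      pi1 cs L x * (g' * cs.simple i * g'⁻¹) := by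
    intro x
    rw [map_mul, pi1_simple]
  have e4 : ∀ (c : W) (x : W1 cs L), c * pi1 cs L x * g' * cs.simple i =
      (c * pi1 cs L (x * (cs1 cs L).simple a)) * g' := by
    intro c x
    rw [e3]
    group
  rw [e4, e4, e2, e2, e2] at h1
  exact h1

/-- the decomposition as a function -/
theorem exists_dec (L : Set B) (w : W) : ∃ p : WP cs L × W1 cs L, w = p.1 * pi1 cs L p.2 := by
  obtain ⟨g, hg, x, hx⟩ := exists_decomp cs L w
  exact ⟨(⟨g, hg⟩, x), hx⟩

/-- the decomposition `w = h x`, `h ∈ W_L`, `x ∈ W₁` -/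
noncomputable def dec (L : Set B) (w : W) : WP cs L × W1 cs L := (exists_dec cs L w).choose

theorem dec_spec (L : Set B) (w : W) : w = (dec cs L w).1 * pi1 cs L (dec cs L w).2 :=
  (exists_dec cs L w).choose_spec

theorem dec_eq (hE : ∀ i, i ∉ L → ∀ j ∈ L, Even (M i j)) (h : WP cs L) (x : W1 cs L) :
    dec cs L (h * pi1 cs L x) = (h, x) := by
  have h1 := dec_spec cs L ((h : W) * pi1 cs L x)
  have h2 := decomp_unique' cs hE h.2 (dec cs L ((h : W) * pi1 cs L x)).1.2 h1
  exact Prod.ext (Subtype.ext h2.2.symm) h2.1.symm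

/-- the embeddings of cosets -/
noncomputable def em (L : Set B) (h g : WP cs L) (x : W1 cs L) : W := h * pi1 cs L x * g

theorem em_inj (hE : ∀ i, i ∉ L → ∀ j ∈ L, Even (M i j)) {h k g : WP cs L} {x y : W1 cs L}
    (e : em cs L h g x = em cs L k g y) : h = k ∧ x = y := by
  have h1 := decomp_unique' cs hE h.2 k.2 (mul_right_cancel e)
  exact ⟨Subtype.ext h1.2, h1.1⟩

theorem em_injective (hE : ∀ i, i ∉ L → ∀ j ∈ L, Even (M i j)) (h g : WP cs L) :
    Function.Injective (em cs L h g) := fun _ _ e => (em_inj cs hE e).2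

theorem exists_em (L : Set B) (g : WP cs L) (w : W) : ∃ h x, em cs L h g x = w := by
  refine ⟨(dec cs L (w * (g : W)⁻¹)).1, (dec cs L (w * (g : W)⁻¹)).2, ?_⟩
  unfold em
  rw [← dec_spec]
  group

/-- the averaged kernel satisfies the commutation conditions -/
theorem CC_avg {q : B → ℝ} (hq : Admissible cs q) (hE : ∀ i, i ∉ L → ∀ j ∈ L, Even (M i j))
    (hL : ∀ i ∈ L, q i = 1) [Fintype (WP cs L)]
    (Z : WP cs L → WP cs L → W1 cs L → W1 cs L → ℂ)
    (hZ : ∀ h k a, CC (cs1 cs L) (q1 cs L q) (Z h k) a) (i : B) :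
    CC cs q (fun w w' => ∑ g : WP cs L, Z (dec cs L (w * (g : W)⁻¹)).1
      (dec cs L (w' * (g : W)⁻¹)).1 (dec cs L (w * (g : W)⁻¹)).2 (dec cs L (w' * (g : W)⁻¹)).2)
      i := by
  intro w w'
  by_cases hi : i ∈ L
  · simp only [pr_one cs (hL i hi), zero_mul, add_zero]
    set t : WP cs L := ⟨cs.simple i, Subgroup.subset_closure ⟨i, hi, rfl⟩⟩ with ht
    rw [← Equiv.sum_comp (Equiv.mulRight t) (fun g : WP cs L => Z (dec cs L (w * (g : W)⁻¹)).1
      (dec cs L (w' * cs.simple i * (g : W)⁻¹)).1 (dec cs L (w * (g : W)⁻¹)).2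
      (dec cs L (w' * cs.simple i * (g : W)⁻¹)).2)]
    refine Finset.sum_congr rfl fun g _ => ?_
    have e1 : ∀ u : W, u * ((Equiv.mulRight t g : WP cs L) : W)⁻¹ = u * cs.simple i * (g : W)⁻¹ := by
      intro u
      rw [Equiv.coe_mulRight, Subgroup.coe_mul, mul_inv_rev, ← mul_assoc]
      congr 2
      exact cs.inv_simple i
    rw [e1, e1, cs.simple_mul_simple_cancel_right]
  · rw [Finset.mul_sum, Finset.mul_sum, ← Finset.sum_add_distrib, ← Finset.sum_add_distrib]
    refine Finset.sum_congr rfl fun g _ => ?_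
    set a : Rf cs L := ⟨g * cs.simple i * (g : W)⁻¹, g, g.2, i, hi, rfl⟩ with ha
    have e0 : ∀ u : W, u = (dec cs L (u * (g : W)⁻¹)).1 * pi1 cs L (dec cs L (u * (g : W)⁻¹)).2 *
        g := by
      intro u
      rw [← dec_spec]
      group
    have e1 : ∀ u : W, dec cs L (u * cs.simple i * (g : W)⁻¹) =
        ((dec cs L (u * (g : W)⁻¹)).1, (dec cs L (u * (g : W)⁻¹)).2 * (cs1 cs L).simple a) := by
      intro u
      rw [← dec_eq cs hE, map_mul, pi1_simple, ← mul_assoc, ← dec_spec]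
      congr 1
      rw [ha]
      group
    have e2 : ∀ u : W, pr cs q i u =
        pr (cs1 cs L) (q1 cs L q) a (dec cs L (u * (g : W)⁻¹)).2 := by
      intro u
      conv_lhs => rw [e0 u]
      exact pr_eq cs hq hE (Subtype.prop _) g.2 _ hi a rfl
    rw [e1 w', e1 w, e2 w', e2 w]
    exact hZ _ _ a _ _

open Classical in
theorem exists_amp {q : B → ℝ} (hq : Admissible cs q) (hE : ∀ i, i ∉ L → ∀ j ∈ L, Even (M i j))
    (hL : ∀ i ∈ L, q i = 1) [Fintype (WP cs L)] :
    Nonempty (Amp (HA cs q) (HA (cs1 cs L) (q1 cs L q)) (δ 1 : L2 W) (δ 1 : L2 (W1 cs L))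
      (WP cs L)) := by
  choose J R hJδ hR hadj hJ1 hJ0 using fun h g : WP cs L => exists_emb (em_injective cs hE h g)
  have hq1 := admissible_q1 cs L hq
  have hRV : ∀ g h k ξ, R h g (J k g ξ) = if h = k then ξ else 0 := by
    intro g h k ξ
    apply lp.ext
    funext x
    rw [hR]
    by_cases hhk : h = k
    · rw [if_pos hhk, hhk, hJ1]
    · rw [if_neg hhk, hJ0]
      · rfl
      · intro y hy
        exact hhk (em_inj cs hE hy).1.symm
  have htot : ∀ g ξ, ∑ h, J h g (R h g ξ) = ξ := by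
    intro g ξ
    apply lp.ext
    funext w
    obtain ⟨h, x, rfl⟩ := exists_em cs L g w
    rw [lp.coeFn_sum, Finset.sum_apply, Finset.sum_eq_single h]
    · rw [hJ1, hR]
    · intro k _ hk
      apply hJ0
      intro y hy
      exact hk (em_inj cs hE hy).1
    · intro h'
      exact absurd (Finset.mem_univ _) h'
  have hcf : ∀ (x : L2 W →L[ℂ] L2 W) (g h k : WP cs L) (z y : W1 cs L),
      cf ((R h g) ∘L (x ∘L (J k g))) z y = cf x (em cs L h g z) (em cs L k g y) := by
    intro x g h k z y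
    change R h g (x (J k g (δ y))) z = _
    rw [hR, hJδ]
    rfl
  have hmem : ∀ x ∈ HA cs q, ∀ g h k, (R h g) ∘L (x ∘L (J k g)) ∈
      HA (cs1 cs L) (q1 cs L q) := by
    intro x hx g h k
    rw [mem_HA_iff_CC _ hq1]
    intro a
    have h1 := CC_res cs hq hE hL ((mem_HA_iff_CC cs hq x).1 hx) h.2 k.2 g.2 a
    intro z y
    simp only [hcf]
    exact h1 z y
  refine ⟨⟨J, R, hadj, hRV, htot, hmem, ?_, ?_⟩⟩
  · intro Φ x hx
    rw [mem_HA_iff_CC cs hq]
    intro i
    have hindep : ∀ g h k, (⟨_, hmem x hx g h k⟩ : HA (cs1 cs L) (q1 cs L q)) =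
        ⟨_, hmem x hx 1 h k⟩ := by
      intro g h k
      apply Subtype.ext
      refine ext_δ fun y => ?_
      apply lp.ext
      funext z
      change cf ((R h g) ∘L (x ∘L (J k g))) z y = cf ((R h 1) ∘L (x ∘L (J k 1))) z y
      rw [hcf, hcf]
      have h1 := CC_inv cs hL ((mem_HA_iff_CC cs hq x).1 hx) g.2 (em cs L h 1 z) (em cs L k 1 y)
      rw [← h1]
      unfold em
      simp
    have hkey : cf (∑ g, ∑ h, ∑ k, J h g ∘L ((Φ ⟨_, hmem x hx g h k⟩ :
        L2 (W1 cs L) →L[ℂ] L2 (W1 cs L)) ∘L R k g)) =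
        fun w w' => ∑ g : WP cs L, (fun h k => cf (Φ ⟨_, hmem x hx 1 h k⟩ :
          L2 (W1 cs L) →L[ℂ] L2 (W1 cs L))) (dec cs L (w * (g : W)⁻¹)).1
          (dec cs L (w' * (g : W)⁻¹)).1 (dec cs L (w * (g : W)⁻¹)).2
          (dec cs L (w' * (g : W)⁻¹)).2 := by
      funext w w'
      have h1 : cf (∑ g, ∑ h, ∑ k, J h g ∘L ((Φ ⟨_, hmem x hx g h k⟩ :
        L2 (W1 cs L) →L[ℂ] L2 (W1 cs L)) ∘L R k g)) w w' = ∑ g, ∑ h, ∑ k,
          (J h g ((Φ ⟨_, hmem x hx g h k⟩ : L2 (W1 cs L) →L[ℂ] L2 (W1 cs L))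
            (R k g (δ w')))) w := by
        unfold cf
        simp only [sum_apply, ContinuousLinearMap.comp_apply, lp.coeFn_sum,
          Finset.sum_apply]
      rw [h1]
      refine Finset.sum_congr rfl fun g _ => ?_
      set p := dec cs L (w * (g : W)⁻¹) with hp
      set p' := dec cs L (w' * (g : W)⁻¹) with hp'
      have ew : w = em cs L p.1 g p.2 := by
        unfold em
        rw [hp, ← dec_spec]
        group
      have ew' : w' = em cs L p'.1 g p'.2 := by
        unfold em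
        rw [hp', ← dec_spec]
        group
      have hRδ : ∀ k, R k g (δ w') = if k = p'.1 then (δ p'.2 : L2 (W1 cs L)) else 0 := by
        intro k
        rw [← hRV g k p'.1, hJδ, ← ew']
      have hJw : ∀ h ξ, (J h g ξ) w = if h = p.1 then ξ p.2 else 0 := by
        intro h ξ
        by_cases hh : h = p.1
        · rw [if_pos hh, hh]
          conv_lhs => rw [ew]
          exact hJ1 _ _ _ _
        · rw [if_neg hh]
          apply hJ0
          intro y hy
          rw [ew] at hy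
          exact hh (em_inj cs hE hy).1
      rw [Finset.sum_eq_single p.1]
      · rw [Finset.sum_eq_single p'.1]
        · rw [hJw, if_pos rfl, hRδ, if_pos rfl, hindep]
          rfl
        · intro k _ hk
          rw [hRδ, if_neg hk, map_zero, map_zero]
          rfl
        · intro h'
          exact absurd (Finset.mem_univ _) h'
      · intro h _ hh
        refine Finset.sum_eq_zero fun k _ => ?_
        rw [hJw, if_neg hh]
      · intro h'
        exact absurd (Finset.mem_univ _) h'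
    rw [hkey]
    refine CC_avg cs hq hE hL (fun h k => cf (Φ ⟨_, hmem x hx 1 h k⟩ :
          L2 (W1 cs L) →L[ℂ] L2 (W1 cs L))) (fun h k a => ?_) i
    exact (mem_HA_iff_CC _ hq1 _).1 (Φ ⟨_, hmem x hx 1 h k⟩).2 a
  · intro g
    refine ⟨g⁻¹, ?_⟩
    rw [hJδ]
    congr 1
    unfold em
    simp

/-- the condition of the theorem: the reflection subgroup generated by the conjugates of the
generators outside `L` is of type FC -/
def RfFC (L : Set B) : Prop :=
  ∀ K : Finset W, (∀ r ∈ K, r ∈ Rf cs L) → (∀ r ∈ K, ∀ r' ∈ K, IsOfFinOrder (r * r')) →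
    Finite (Subgroup.closure (K : Set W))

theorem haagerup_sd {q : B → ℝ} (hq : Admissible cs q) (hE : ∀ i, i ∉ L → ∀ j ∈ L, Even (M i j))
    (hL : ∀ i ∈ L, q i = 1) (hfin : Finite (WP cs L)) (hFC : RfFC cs L) :
    HasHaagerupProperty (HA cs q) (δ 1) := by
  classical
  have : Fintype (WP cs L) := Fintype.ofFinite _
  obtain ⟨D⟩ := exists_amp cs hq hE hL
  have : Nonempty (WP cs L) := ⟨1⟩
  convert D.haagerup (haagerup_HA (cs1 cs L) (isFC_cs1 cs hE hFC) (admissible_q1 cs L hq))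

theorem cbap_sd {q : B → ℝ} (hq : Admissible cs q) (hE : ∀ i, i ∉ L → ∀ j ∈ L, Even (M i j))
    (hL : ∀ i ∈ L, q i = 1) (hfin : Finite (WP cs L)) (hFC : RfFC cs L) {C : ℝ} (hC : 1 < C) :
    HasWeakStarCBAP (HA cs q) C := by
  classical
  have : Fintype (WP cs L) := Fintype.ofFinite _
  obtain ⟨D⟩ := exists_amp cs hq hE hL
  have : Nonempty (WP cs L) := ⟨1⟩
  exact D.cbap (cbap_HA (cs1 cs L) (isFC_cs1 cs hE hFC) (admissible_q1 cs L hq) hC)

end Pool.Agent.H26.SD
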