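import Pool.Agent.H26.SD.Grp
import Pool.Agent.H73.HVN.Exch

/-!
# Descents in a semidirect decomposition

For `g, k ∈ W_L`, `x ∈ W₁`, `s ∉ L`: `s` is a right descent of `k x g` iff `g s g⁻¹` is a right descent of
`x` in `W₁`.
-/

set_option autoImplicit false

namespace Pool.Agent.H26.SD

open Pool.Agent.H73.HVN

universe u v

variable {B : Type v} {W : Type u} [Group W] {M : CoxeterMatrix B} (cs : CoxeterSystem M W)
variable (L : Set B)

theorem exists_word_mem {g : W} (hg : g ∈ WP cs L) : ∃ ω : List B, (∀ i ∈ ω, i ∈ L) ∧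
    cs.wordProd ω = g := by
  induction hg using Subgroup.closure_induction with
  | mem x hx =>
    obtain ⟨i, hi, rfl⟩ := hx
    exact ⟨[i], by simpa using hi, by simp⟩
  | one => exact ⟨[], by simp, by simp⟩
  | mul x y hx hy ihx ihy =>
    obtain ⟨ω, h1, h2⟩ := ihx
    obtain ⟨ω', h3, h4⟩ := ihy
    refine ⟨ω ++ ω', ?_, by rw [cs.wordProd_append, h2, h4]⟩
    intro i hi
    rcases List.mem_append.1 hi with h | h
    · exact h1 i h
    · exact h3 i h
  | inv x hx ihx =>
    obtain ⟨ω, h1, h2⟩ := ihx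
    refine ⟨ω.reverse, ?_, by rw [cs.wordProd_reverse, h2]⟩
    intro i hi
    exact h1 i (List.mem_reverse.1 hi)

variable {L} in
theorem chi_erase {χ : W →* ℤˣ} (hχ : ∀ i ∈ L, χ (cs.simple i) = 1) :
    ∀ (ω : List B), (∀ i ∈ ω, i ∈ L) → ∀ j, χ (cs.wordProd (ω.eraseIdx j)) = 1 := by
  have h0 : ∀ (ω : List B), (∀ i ∈ ω, i ∈ L) → χ (cs.wordProd ω) = 1 := by
    intro ω
    induction ω with
    | nil => intro _; simp
    | cons i ω ih =>
      intro h
      rw [cs.wordProd_cons, map_mul, hχ i (h i (by simp)), ih (fun k hk => h k (by simp [hk])),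
        one_mul]
  intro ω h j
  exact h0 _ (fun i hi => h i (List.mem_of_mem_eraseIdx hi))

variable {L} in
theorem chi_word {χ : W →* ℤˣ} (hχ : ∀ i ∈ L, χ (cs.simple i) = 1)
    (ω : List B) (h : ∀ i ∈ ω, i ∈ L) : χ (cs.wordProd ω) = 1 := by
  have h1 := chi_erase cs hχ ω h ω.length
  rwa [List.eraseIdx_of_length_le le_rfl] at h1

variable {L} in
theorem exists_lift_word {χ : W →* ℤˣ} (hχ : ∀ i ∈ L, χ (cs.simple i) = 1) :
    ∀ (ω₁ : List (Rf cs L)) (k g : W), k ∈ WP cs L → g ∈ WP cs L →
    ∃ ω : List B, cs.wordProd ω = k * pi1 cs L ((cs1 cs L).wordProd ω₁) * g ∧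
      ∀ j < ω.length, χ (cs.wordProd (ω.eraseIdx j)) = χ (cs.wordProd ω) ∨
        ∃ j' < ω₁.length, cs.wordProd (ω.eraseIdx j) =
          k * pi1 cs L ((cs1 cs L).wordProd (ω₁.eraseIdx j')) * g := by
  intro ω₁
  induction ω₁ with
  | nil =>
    intro k g hk hg
    obtain ⟨ω, h1, h2⟩ := exists_word_mem cs L (mul_mem hk hg)
    refine ⟨ω, by rw [h2]; simp, ?_⟩
    intro j _
    left
    rw [chi_erase cs hχ ω h1, chi_word cs hχ ω h1]
  | cons a ω₁ ih =>
    intro k g hk hg
    obtain ⟨a, h, hh, i, hi, rfl⟩ := a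
    obtain ⟨Ω, e1, e2⟩ := ih h⁻¹ g (inv_mem hh) hg
    obtain ⟨γ, c1, c2⟩ := exists_word_mem cs L (mul_mem hk hh)
    have ha : ∀ (r : Rf cs L), (r : W) = h * cs.simple i * h⁻¹ → ∀ ρ : List (Rf cs L),
        k * pi1 cs L ((cs1 cs L).wordProd (r :: ρ)) * g =
          (k * h) * (cs.simple i * (h⁻¹ * pi1 cs L ((cs1 cs L).wordProd ρ) * g)) := by
      intro r hr ρ
      rw [(cs1 cs L).wordProd_cons, map_mul, pi1_simple, hr]
      group
    refine ⟨γ ++ (i :: Ω), ?_, ?_⟩
    · rw [cs.wordProd_append, cs.wordProd_cons, e1, c2, ha _ rfl]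
    · intro j hj
      rcases lt_or_ge j γ.length with h1 | h1
      · left
        rw [List.eraseIdx_append_of_lt_length h1, cs.wordProd_append, cs.wordProd_append, map_mul,
          map_mul, chi_erase cs hχ γ c1, chi_word cs hχ γ c1]
      · rw [List.eraseIdx_append_of_length_le h1]
        obtain ⟨m, hm⟩ : ∃ m, j - γ.length = m := ⟨_, rfl⟩
        rw [hm]
        rcases m with _ | m
        · right
          refine ⟨0, by simp, ?_⟩
          rw [List.eraseIdx_cons_zero, cs.wordProd_append, e1, c2, List.eraseIdx_cons_zero]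
          group
        · have hmΩ : m < Ω.length := by
            simp only [List.length_append, List.length_cons] at hj
            omega
          rw [List.eraseIdx_cons_succ]
          rcases e2 m hmΩ with h2 | ⟨j', hj', h2⟩
          · left
            rw [cs.wordProd_append, cs.wordProd_append, map_mul, map_mul, cs.wordProd_cons,
              cs.wordProd_cons, map_mul, map_mul, h2]
          · right
            refine ⟨j' + 1, by simpa using hj', ?_⟩
            rw [cs.wordProd_append, cs.wordProd_cons, h2, c2, List.eraseIdx_cons_succ, ha _ rfl]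

variable {L} in
theorem descent_aux (hE : ∀ i, i ∉ L → ∀ j ∈ L, Even (M i j)) {k g : W} (hk : k ∈ WP cs L)
    (hg : g ∈ WP cs L) (x : W1 cs L) {i : B} (hi : i ∉ L) (a : Rf cs L)
    (ha : (a : W) = g * cs.simple i * g⁻¹) (h : cs.IsRightDescent (k * pi1 cs L x * g) i) :
    (cs1 cs L).IsRightDescent x a := by
  obtain ⟨χ, hχ1, hχ2⟩ := exists_chi cs L hE
  obtain ⟨ω₁, hred, rfl⟩ := (cs1 cs L).exists_isReduced x
  obtain ⟨ω, e1, e2⟩ := exists_lift_word cs hχ1 ω₁ k g hk hg
  obtain ⟨j, hj, hj2⟩ := strong_exchange cs (ω := ω) (cs.isReflection_simple i) (by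
    rw [e1]
    exact h)
  rcases e2 j hj with h1 | ⟨j', hj', h1⟩
  · exfalso
    rw [← hj2, map_mul, hχ2 i hi] at h1
    have h2 : (-1 : ℤˣ) = 1 := by
      have := mul_left_cancel (h1.trans (mul_one _).symm)
      exact this
    exact absurd h2 (by decide)
  · have h3 : pi1 cs L ((cs1 cs L).wordProd ω₁ * (cs1 cs L).simple a) * g =
        pi1 cs L ((cs1 cs L).wordProd (ω₁.eraseIdx j')) * g := by
      rw [map_mul, pi1_simple, ha]
      have h4 := hj2.trans h1
      rw [e1] at h4
      have h5 := congrArg (fun z => k⁻¹ * z) h4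
      simp only [mul_assoc] at h5 ⊢
      simpa using h5
    have h4 := (decomp_unique cs hE hg hg h3).1
    change (cs1 cs L).length ((cs1 cs L).wordProd ω₁ * (cs1 cs L).simple a) <
      (cs1 cs L).length ((cs1 cs L).wordProd ω₁)
    rw [h4]
    have h5 := (cs1 cs L).length_wordProd_le (ω₁.eraseIdx j')
    rw [List.length_eraseIdx_of_lt hj'] at h5
    have h6 : (cs1 cs L).length ((cs1 cs L).wordProd ω₁) = ω₁.length := hred
    omega

variable {L} in
/-- the descents of `k x g` -/
theorem descent_iff (hE : ∀ i, i ∉ L → ∀ j ∈ L, Even (M i j)) {k g : W} (hk : k ∈ WP cs L)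
    (hg : g ∈ WP cs L) (x : W1 cs L) {i : B} (hi : i ∉ L) (a : Rf cs L)
    (ha : (a : W) = g * cs.simple i * g⁻¹) :
    cs.IsRightDescent (k * pi1 cs L x * g) i ↔ (cs1 cs L).IsRightDescent x a := by
  constructor
  · exact descent_aux cs hE hk hg x hi a ha
  · intro h
    by_contra hn
    have h1 : cs.IsRightDescent (k * pi1 cs L (x * (cs1 cs L).simple a) * g) i := by
      have e : k * pi1 cs L (x * (cs1 cs L).simple a) * g = k * pi1 cs L x * g * cs.simple i := by
        rw [map_mul, pi1_simple, ha]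
        group
      rw [e, cs.isRightDescent_iff_not_isRightDescent_mul, mul_assoc, cs.simple_mul_simple_self,
        mul_one]
      exact hn
    have h2 := descent_aux cs hE hk hg _ hi a ha h1
    rw [(cs1 cs L).isRightDescent_iff_not_isRightDescent_mul, mul_assoc,
      (cs1 cs L).simple_mul_simple_self, mul_one] at h2
    exact h2 h

end Pool.Agent.H26.SD
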