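import Pool.Agent.H73.HVN.Final
import Pool.Agent.H73.HVN.Bridge

/-!
# Semidirect decompositions of Coxeter groups

`(W, S)` a Coxeter system, `L` a set of generators with `m_st` even or infinite for `s ∉ L`, `t ∈ L`.
The reflections `g s g⁻¹` (`g ∈ W_L`, `s ∉ L`) are the Coxeter generators of a normal reflection
subgroup `W₁`, and `W = W₁ ⋊ W_L`.
-/

set_option autoImplicit false

namespace Pool.Agent.H26.SD

open Pool.Agent.H73.HVN

universe u v

variable {B : Type v} {W : Type u} [Group W] {M : CoxeterMatrix B} (cs : CoxeterSystem M W)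
variable (L : Set B)

/-- the reflections `g s g⁻¹`, `g ∈ W_L`, `s ∉ L` -/
def Rf : Set W := {r | ∃ g ∈ WP cs L, ∃ i, i ∉ L ∧ r = g * cs.simple i * g⁻¹}

theorem Rf_sq {r : W} (hr : r ∈ Rf cs L) : r * r = 1 := by
  obtain ⟨g, _, i, _, rfl⟩ := hr
  calc g * cs.simple i * g⁻¹ * (g * cs.simple i * g⁻¹)
      = g * (cs.simple i * cs.simple i) * g⁻¹ := by group
    _ = 1 := by rw [cs.simple_mul_simple_self]; group

theorem Rf_inv {r : W} (hr : r ∈ Rf cs L) : r⁻¹ = r :=
  inv_eq_of_mul_eq_one_right (Rf_sq cs L hr)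

theorem Rf_conj {r g : W} (hg : g ∈ WP cs L) (hr : r ∈ Rf cs L) : g * r * g⁻¹ ∈ Rf cs L := by
  obtain ⟨h, hh, i, hi, rfl⟩ := hr
  exact ⟨g * h, mul_mem hg hh, i, hi, by group⟩

theorem simple_mem_Rf {i : B} (hi : i ∉ L) : cs.simple i ∈ Rf cs L :=
  ⟨1, one_mem _, i, hi, by group⟩

/-- the Coxeter matrix of the reflections `g s g⁻¹` -/
noncomputable def M1 : CoxeterMatrix (Rf cs L) where
  M := fun a b => orderOf ((a : W) * (b : W))
  isSymm := by
    ext a b
    change orderOf ((b : W) * (a : W)) = orderOf ((a : W) * (b : W))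
    have h : ((b : W) * (a : W)) = ((a : W) * (b : W))⁻¹ := by
      rw [mul_inv_rev, Rf_inv cs L a.2, Rf_inv cs L b.2]
    rw [h, orderOf_inv]
  diagonal := fun a => by
    rw [Rf_sq cs L a.2, orderOf_one]
  off_diagonal := fun a b hab h => by
    rw [orderOf_eq_one_iff] at h
    apply hab
    apply Subtype.ext
    rw [← mul_right_inj (a : W), Rf_sq cs L a.2, h]

theorem M1_apply (a b : Rf cs L) : M1 cs L a b = orderOf ((a : W) * (b : W)) := rfl

/-- the reflection subgroup, as an abstract Coxeter group -/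
abbrev W1 : Type u := (M1 cs L).Group

/-- its Coxeter system -/
noncomputable def cs1 : CoxeterSystem (M1 cs L) (W1 cs L) := (M1 cs L).toCoxeterSystem

theorem liftable_val : (M1 cs L).IsLiftable (fun a : Rf cs L => (a : W)) := by
  intro a b
  exact pow_orderOf_eq_one _

/-- the embedding of the reflection subgroup -/
noncomputable def pi1 : W1 cs L →* W := (cs1 cs L).lift ⟨fun a => (a : W), liftable_val cs L⟩

theorem pi1_simple (a : Rf cs L) : pi1 cs L ((cs1 cs L).simple a) = (a : W) :=
  (cs1 cs L).lift_apply_simple (liftable_val cs L) a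

/-- conjugation on the generators -/
def cj (g : WP cs L) (a : Rf cs L) : Rf cs L := ⟨g * a * (g : W)⁻¹, Rf_conj cs L g.2 a.2⟩

theorem M1_cj (g : WP cs L) (a b : Rf cs L) : M1 cs L (cj cs L g a) (cj cs L g b) = M1 cs L a b := by
  rw [M1_apply, M1_apply]
  have h : ((cj cs L g a : W) * (cj cs L g b : W)) = MulAut.conj (g : W) ((a : W) * (b : W)) := by
    simp only [cj, MulAut.conj_apply]
    group
  rw [h]
  exact (orderOf_injective (MulAut.conj (g : W)).toMonoidHom (MulAut.conj (g : W)).injective _)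

theorem liftable_cj (g : WP cs L) :
    (M1 cs L).IsLiftable (fun a : Rf cs L => (cs1 cs L).simple (cj cs L g a)) := by
  intro a b
  rw [← M1_cj cs L g a b]
  exact (cs1 cs L).simple_mul_simple_pow _ _

/-- conjugation on the reflection subgroup -/
noncomputable def act1 (g : WP cs L) : W1 cs L →* W1 cs L :=
  (cs1 cs L).lift ⟨_, liftable_cj cs L g⟩

theorem act1_simple (g : WP cs L) (a : Rf cs L) :
    act1 cs L g ((cs1 cs L).simple a) = (cs1 cs L).simple (cj cs L g a) :=
  (cs1 cs L).lift_apply_simple (liftable_cj cs L g) a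

theorem cj_cj (g h : WP cs L) (a : Rf cs L) : cj cs L g (cj cs L h a) = cj cs L (g * h) a := by
  apply Subtype.ext
  simp only [cj, Subgroup.coe_mul]
  group

theorem cj_one (a : Rf cs L) : cj cs L 1 a = a := by
  apply Subtype.ext
  simp [cj]

theorem act1_mul (g h : WP cs L) : (act1 cs L g).comp (act1 cs L h) = act1 cs L (g * h) := by
  apply (cs1 cs L).ext_simple
  intro a
  rw [MonoidHom.comp_apply, act1_simple, act1_simple, act1_simple, cj_cj]

theorem act1_one : act1 cs L 1 = MonoidHom.id _ := by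
  apply (cs1 cs L).ext_simple
  intro a
  rw [act1_simple, cj_one, MonoidHom.id_apply]

/-- the action of `W_L` on the reflection subgroup -/
noncomputable def al : WP cs L →* MulAut (W1 cs L) where
  toFun g := MonoidHom.toMulEquiv (act1 cs L g) (act1 cs L g⁻¹)
    (by rw [act1_mul, inv_mul_cancel, act1_one]) (by rw [act1_mul, mul_inv_cancel, act1_one])
  map_one' := by
    ext x
    change act1 cs L 1 x = x
    rw [act1_one, MonoidHom.id_apply]
  map_mul' g h := by
    ext x
    change act1 cs L (g * h) x = act1 cs L g (act1 cs L h x)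
    rw [← act1_mul, MonoidHom.comp_apply]

theorem al_apply (g : WP cs L) (x : W1 cs L) : al cs L g x = act1 cs L g x := rfl

theorem pi1_act1 (g : WP cs L) (x : W1 cs L) :
    pi1 cs L (act1 cs L g x) = g * pi1 cs L x * (g : W)⁻¹ := by
  have h : (pi1 cs L).comp (act1 cs L g) = (MulAut.conj (g : W)).toMonoidHom.comp (pi1 cs L) := by
    apply (cs1 cs L).ext_simple
    intro a
    rw [MonoidHom.comp_apply, act1_simple, pi1_simple, MonoidHom.comp_apply, pi1_simple]
    rfl
  exact DFunLike.congr_fun h x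

open Classical in
/-- the values of the isomorphism on the generators -/
noncomputable def psF (i : B) : W1 cs L ⋊[al cs L] WP cs L :=
  if h : i ∈ L then SemidirectProduct.inr ⟨cs.simple i, Subgroup.subset_closure ⟨i, h, rfl⟩⟩
  else SemidirectProduct.inl ((cs1 cs L).simple ⟨cs.simple i, simple_mem_Rf cs L h⟩)

variable {L} in
theorem liftable_psF (hE : ∀ i, i ∉ L → ∀ j ∈ L, Even (M i j)) : M.IsLiftable (psF cs L) := by
  classical
  have key : ∀ i, i ∉ L → ∀ j ∈ L, (psF cs L i * psF cs L j) ^ M i j = 1 := by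
    intro i hi j hj
    obtain ⟨k, hk⟩ := hE i hi j hj
    rw [hk, ← two_mul, pow_mul]
    set a : Rf cs L := ⟨cs.simple i, simple_mem_Rf cs L hi⟩ with ha
    set t : WP cs L := ⟨cs.simple j, Subgroup.subset_closure ⟨j, hj, rfl⟩⟩ with ht
    have htt : t * t = 1 := Subtype.ext (cs.simple_mul_simple_self j)
    have h1 : psF cs L i = SemidirectProduct.inl ((cs1 cs L).simple a) := by
      unfold psF
      rw [dif_neg hi]
    have h2 : psF cs L j = SemidirectProduct.inr t := by
      unfold psF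
      rw [dif_pos hj]
    have h3 : (psF cs L i * psF cs L j) ^ 2 =
        SemidirectProduct.inl ((cs1 cs L).simple a * (cs1 cs L).simple (cj cs L t a)) := by
      rw [h1, h2, pow_two]
      apply SemidirectProduct.ext
      · simp [al_apply, act1_simple]
      · simp [htt]
    rw [h3, ← map_pow]
    have h4 : ((cs1 cs L).simple a * (cs1 cs L).simple (cj cs L t a)) ^ k = 1 := by
      have h5 : M1 cs L a (cj cs L t a) ∣ k := by
        rw [M1_apply]
        apply orderOf_dvd_of_pow_eq_one
        have h6 : ((a : W) * (cj cs L t a : W)) = (cs.simple i * cs.simple j) ^ 2 := by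
          simp only [cj, ha, ht, pow_two, cs.inv_simple]
          group
        rw [h6, ← pow_mul, two_mul, ← hk]
        exact cs.simple_mul_simple_pow i j
      obtain ⟨m, hm⟩ := h5
      rw [hm, pow_mul, (cs1 cs L).simple_mul_simple_pow, one_pow]
    rw [h4, map_one]
  intro i j
  by_cases hi : i ∈ L <;> by_cases hj : j ∈ L
  · have h1 : psF cs L i * psF cs L j =
        SemidirectProduct.inr ((⟨cs.simple i, Subgroup.subset_closure ⟨i, hi, rfl⟩⟩ : WP cs L) *
          ⟨cs.simple j, Subgroup.subset_closure ⟨j, hj, rfl⟩⟩) := by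
      unfold psF
      rw [dif_pos hi, dif_pos hj, map_mul]
    rw [h1, ← map_pow]
    have h2 : ((⟨cs.simple i, Subgroup.subset_closure ⟨i, hi, rfl⟩⟩ : WP cs L) *
          ⟨cs.simple j, Subgroup.subset_closure ⟨j, hj, rfl⟩⟩) ^ M i j = 1 := by
      apply Subtype.ext
      simp
    rw [h2, map_one]
  · have h1 := key j hj i hi
    rw [M.symmetric i j]
    have h2 : psF cs L i * psF cs L j = psF cs L i * (psF cs L j * psF cs L i) * (psF cs L i)⁻¹ := by
      group
    rw [h2, conj_pow, h1]
    group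
  · exact key i hi j hj
  · have h1 : psF cs L i * psF cs L j = SemidirectProduct.inl
        ((cs1 cs L).simple ⟨cs.simple i, simple_mem_Rf cs L hi⟩ *
          (cs1 cs L).simple ⟨cs.simple j, simple_mem_Rf cs L hj⟩) := by
      unfold psF
      rw [dif_neg hi, dif_neg hj, map_mul]
    rw [h1, ← map_pow]
    have h5 : M1 cs L ⟨cs.simple i, simple_mem_Rf cs L hi⟩ ⟨cs.simple j, simple_mem_Rf cs L hj⟩ ∣
        M i j := by
      rw [M1_apply]
      exact orderOf_dvd_of_pow_eq_one (cs.simple_mul_simple_pow i j)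
    obtain ⟨m, hm⟩ := h5
    rw [hm, pow_mul, (cs1 cs L).simple_mul_simple_pow, one_pow, map_one]

variable {L} in
/-- the isomorphism `W ≃ W₁ ⋊ W_L` -/
noncomputable def psi (hE : ∀ i, i ∉ L → ∀ j ∈ L, Even (M i j)) :
    W →* W1 cs L ⋊[al cs L] WP cs L := cs.lift ⟨psF cs L, liftable_psF cs hE⟩

variable {L} in
theorem psi_simple (hE : ∀ i, i ∉ L → ∀ j ∈ L, Even (M i j)) (i : B) :
    psi cs hE (cs.simple i) = psF cs L i := cs.lift_apply_simple (liftable_psF cs hE) i

variable {L} in
theorem psi_WP (hE : ∀ i, i ∉ L → ∀ j ∈ L, Even (M i j)) {g : W} (hg : g ∈ WP cs L) :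
    psi cs hE g = SemidirectProduct.inr ⟨g, hg⟩ := by
  have h : ∀ g (hg : g ∈ WP cs L), psi cs hE g = SemidirectProduct.inr ⟨g, hg⟩ := by
    intro g hg
    induction hg using Subgroup.closure_induction with
    | mem x hx =>
      obtain ⟨i, hi, rfl⟩ := hx
      rw [psi_simple]
      unfold psF
      rw [dif_pos hi]
    | one =>
      rw [map_one]
      exact (map_one _).symm
    | mul x y hx hy ihx ihy =>
      rw [map_mul, ihx, ihy, ← map_mul]
      rfl
    | inv x hx ihx =>
      rw [map_inv, ihx, ← map_inv]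
      rfl
  exact h g hg

variable {L} in
theorem psi_pi1 (hE : ∀ i, i ∉ L → ∀ j ∈ L, Even (M i j)) (x : W1 cs L) :
    psi cs hE (pi1 cs L x) = SemidirectProduct.inl x := by
  have h : (psi cs hE).comp (pi1 cs L) = SemidirectProduct.inl := by
    apply (cs1 cs L).ext_simple
    rintro ⟨a, g, hg, i, hi, rfl⟩
    rw [MonoidHom.comp_apply, pi1_simple]
    simp only [map_mul, map_inv]
    rw [psi_WP cs hE hg, psi_simple]
    unfold psF
    rw [dif_neg hi]
    apply SemidirectProduct.ext
    · simp only [SemidirectProduct.mul_left, SemidirectProduct.left_inr, one_mul,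
        SemidirectProduct.right_inr, SemidirectProduct.left_inl, SemidirectProduct.mul_right,
        SemidirectProduct.right_inl, mul_one, SemidirectProduct.inv_left, inv_one, map_one]
      rw [al_apply, act1_simple]
      rfl
    · simp
  exact DFunLike.congr_fun h x

variable {L} in
theorem decomp_unique (hE : ∀ i, i ∉ L → ∀ j ∈ L, Even (M i j)) {x y : W1 cs L} {g h : W}
    (hg : g ∈ WP cs L) (hh : h ∈ WP cs L) (e : pi1 cs L x * g = pi1 cs L y * h) :
    x = y ∧ g = h := by
  have h1 := congrArg (psi cs hE) e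
  rw [map_mul, map_mul, psi_pi1, psi_pi1, psi_WP cs hE hg, psi_WP cs hE hh] at h1
  have h2 := congrArg SemidirectProduct.left h1
  have h3 := congrArg SemidirectProduct.right h1
  simp at h2 h3
  exact ⟨h2, h3⟩

variable {L} in
theorem decomp_unique' (hE : ∀ i, i ∉ L → ∀ j ∈ L, Even (M i j)) {x y : W1 cs L} {g h : W}
    (hg : g ∈ WP cs L) (hh : h ∈ WP cs L) (e : g * pi1 cs L x = h * pi1 cs L y) :
    x = y ∧ g = h := by
  have h1 : pi1 cs L (act1 cs L ⟨g, hg⟩ x) * g = pi1 cs L (act1 cs L ⟨h, hh⟩ y) * h := by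
    rw [pi1_act1, pi1_act1]
    simpa using e
  have h2 := (decomp_unique cs hE hg hh h1).2
  subst h2
  have h3 := mul_left_cancel e
  have h4 := decomp_unique cs hE (x := x) (y := y) (one_mem _) (one_mem _) (by rw [h3])
  exact ⟨h4.1, rfl⟩

theorem pi1_conj {g : W} (hg : g ∈ WP cs L) (x : W1 cs L) :
    ∃ y : W1 cs L, pi1 cs L y = g * pi1 cs L x * g⁻¹ :=
  ⟨act1 cs L ⟨g, hg⟩ x, pi1_act1 cs L ⟨g, hg⟩ x⟩

theorem exists_decomp (w : W) : ∃ g ∈ WP cs L, ∃ x : W1 cs L, w = g * pi1 cs L x := by
  classical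
  refine cs.simple_induction_left w (p := fun w => ∃ g ∈ WP cs L, ∃ x : W1 cs L,
    w = g * pi1 cs L x) ⟨1, one_mem _, 1, by simp⟩ ?_
  rintro w i ⟨g, hg, x, rfl⟩
  by_cases hi : i ∈ L
  · exact ⟨cs.simple i * g, mul_mem (Subgroup.subset_closure ⟨i, hi, rfl⟩) hg, x, by group⟩
  · have h1 := Rf_conj cs L (inv_mem hg) (simple_mem_Rf cs L hi)
    refine ⟨g, hg, (cs1 cs L).simple ⟨_, h1⟩ * x, ?_⟩
    rw [map_mul, pi1_simple]
    group

/-- the sign character which is `-1` exactly on the generators outside `L` -/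
theorem exists_chi (hE : ∀ i, i ∉ L → ∀ j ∈ L, Even (M i j)) :
    ∃ χ : W →* ℤˣ, (∀ i ∈ L, χ (cs.simple i) = 1) ∧ ∀ i, i ∉ L → χ (cs.simple i) = -1 := by
  classical
  have hl : M.IsLiftable (fun i => if i ∈ L then (1 : ℤˣ) else -1) := by
    intro i j
    by_cases hi : i ∈ L <;> by_cases hj : j ∈ L
    · simp [hi, hj]
    · have := hE j hj i hi
      rw [M.symmetric i j]
      simp [hi, hj, this.neg_one_pow]
    · have := hE i hi j hj
      simp [hi, hj, this.neg_one_pow]
    · simp [hi, hj]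
  refine ⟨cs.lift ⟨_, hl⟩, fun i hi => ?_, fun i hi => ?_⟩
  · rw [cs.lift_apply_simple hl]
    simp [hi]
  · rw [cs.lift_apply_simple hl]
    simp [hi]

end Pool.Agent.H26.SD
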