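import Pool.Agent.H26.SD.Desc

/-!
# The parameter of the reflection subgroup; the FC condition
-/

set_option autoImplicit false

namespace Pool.Agent.H26.SD

open Pool.Agent.H73.HVN

universe u v

variable {B : Type v} {W : Type u} [Group W] {M : CoxeterMatrix B} (cs : CoxeterSystem M W)
variable (L : Set B)

/-- the parameter of the reflection subgroup: `q̃(g s g⁻¹) = q(s)` -/
noncomputable def q1 (q : B → ℝ) (a : Rf cs L) : ℝ := q (Classical.choose a.2.choose_spec.2)

theorem q1_eq {q : B → ℝ} (hq : Admissible cs q) (a : Rf cs L) {g : W} {i : B}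
    (ha : (a : W) = g * cs.simple i * g⁻¹) : q1 cs L q a = q i := by
  have h1 := (Classical.choose_spec a.2.choose_spec.2).2
  apply hq.2
  rw [isConj_iff]
  refine ⟨g⁻¹ * a.2.choose, ?_⟩
  calc g⁻¹ * a.2.choose * cs.simple (Classical.choose a.2.choose_spec.2) * (g⁻¹ * a.2.choose)⁻¹
      = g⁻¹ * (a.2.choose * cs.simple (Classical.choose a.2.choose_spec.2) * a.2.choose⁻¹) * g := by
        group
    _ = g⁻¹ * (a : W) * g := by rw [← h1]
    _ = cs.simple i := by rw [ha]; group

theorem admissible_q1 {q : B → ℝ} (hq : Admissible cs q) : Admissible (cs1 cs L) (q1 cs L q) := by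
  refine ⟨fun a => hq.1 _, fun a b hab => ?_⟩
  obtain ⟨g, hg⟩ := isConj_iff.1 hab
  obtain ⟨⟨_, h, hh, i, hi, rfl⟩, rfl⟩ : ∃ a' : Rf cs L, a' = a := ⟨a, rfl⟩
  obtain ⟨b, k, hk, j, hj, rfl⟩ := b
  rw [q1_eq cs L hq _ rfl, q1_eq cs L hq _ rfl]
  apply hq.2
  have h1 := congrArg (pi1 cs L) hg
  rw [map_mul, map_mul, map_inv, pi1_simple, pi1_simple] at h1
  rw [isConj_iff]
  refine ⟨k⁻¹ * pi1 cs L g * h, ?_⟩
  calc k⁻¹ * pi1 cs L g * h * cs.simple i * (k⁻¹ * pi1 cs L g * h)⁻¹
      = k⁻¹ * (pi1 cs L g * (h * cs.simple i * h⁻¹) * (pi1 cs L g)⁻¹) * k := by group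
    _ = k⁻¹ * (k * cs.simple j * k⁻¹) * k := by rw [h1]
    _ = cs.simple j := by group

variable {L} in
theorem pi1_injective (hE : ∀ i, i ∉ L → ∀ j ∈ L, Even (M i j)) :
    Function.Injective (pi1 cs L) := by
  intro x y h
  exact (decomp_unique cs hE (one_mem _) (one_mem _) (by rw [h])).1

variable {L} in
/-- the condition FC for the reflection subgroup -/
theorem isFC_cs1 (hE : ∀ i, i ∉ L → ∀ j ∈ L, Even (M i j))
    (h : ∀ K : Finset W, (∀ r ∈ K, r ∈ Rf cs L) → (∀ r ∈ K, ∀ r' ∈ K, IsOfFinOrder (r * r')) →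
      Finite (Subgroup.closure (K : Set W))) : IsFC (cs1 cs L) := by
  classical
  intro K hK
  have h1 := h (K.image (fun a : Rf cs L => (a : W))) (by
    intro r hr
    obtain ⟨a, _, rfl⟩ := Finset.mem_image.1 hr
    exact a.2) (by
    intro r hr r' hr'
    obtain ⟨a, ha, rfl⟩ := Finset.mem_image.1 hr
    obtain ⟨b, hb, rfl⟩ := Finset.mem_image.1 hr'
    have h2 := hK a ha b hb
    rw [M1_apply] at h2
    exact orderOf_ne_zero_iff.1 h2)
  have h2 : (Subgroup.closure ((cs1 cs L).simple '' (K : Set (Rf cs L)))).map (pi1 cs L) =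
      Subgroup.closure ((K.image (fun a : Rf cs L => (a : W)) : Finset W) : Set W) := by
    rw [MonoidHom.map_closure, Finset.coe_image, ← Set.image_comp]
    congr 1
    apply Set.image_congr
    intro a _
    exact pi1_simple cs L a
  rw [← h2] at h1
  exact Finite.of_equiv _ ((Subgroup.equivMapOfInjective _ (pi1 cs L)
    (pi1_injective cs hE)).toEquiv.symm)

end Pool.Agent.H26.SD
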