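import Pool.Agent.H26.SD.Asm

/-!
# The condition of the theorems

`(W, S)` a Coxeter system, `L ⊆ S`. `W_L` is the subgroup generated by `L`, and `R_L` is the set of the
reflections `g s g⁻¹` with `g ∈ W_L` and `s ∈ S`, `s ∉ L`.
-/

set_option autoImplicit false

namespace Pool.Agent.H26.SD

open Pool.Agent.H73.HVN

universe u v

variable {B : Type v} {W : Type u} [Group W] {M : CoxeterMatrix B} (cs : CoxeterSystem M W)

/-- `R_L`: the reflections `g s g⁻¹` with `g ∈ W_L` and `s ∉ L` a simple reflection -/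
def refl (L : Set B) : Set W :=
  {r | ∃ g ∈ Subgroup.closure (cs.simple '' L), ∃ i, i ∉ L ∧ r = g * cs.simple i * g⁻¹}

/-- The condition on `L`: `m_{st}` is even or infinite for all `s ∉ L`, `t ∈ L` (in Mathlib `M i j = 0`
encodes `m_{ij} = ∞`), the subgroup `W_L` is finite, and the reflection subgroup generated by `R_L` is of
type FC: every finite set `K ⊆ R_L` such that `r r'` has finite order for all `r, r' ∈ K` generates a
finite subgroup of `W`. -/
def FCRel (L : Set B) : Prop :=
  (∀ i, i ∉ L → ∀ j ∈ L, Even (M i j)) ∧ Finite (Subgroup.closure (cs.simple '' L)) ∧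
    ∀ K : Finset W, (∀ r ∈ K, r ∈ refl cs L) → (∀ r ∈ K, ∀ r' ∈ K, IsOfFinOrder (r * r')) →
      Finite (Subgroup.closure (K : Set W))

theorem fcRel_rfFC {L : Set B} (h : FCRel cs L) : RfFC cs L := h.2.2

/-- For `L = ∅` the condition is that `(W, S)` is of type FC. -/
theorem fcRel_empty (hFC : St.IsFC cs) : FCRel cs ∅ := by
  classical
  have h0 : Subgroup.closure (cs.simple '' (∅ : Set B)) = ⊥ := by simp
  refine ⟨fun i _ j hj => absurd hj (Set.notMem_empty j), ?_, ?_⟩
  · rw [h0]
    infer_instance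
  · intro K hK hord
    have hK' : ∀ r ∈ K, ∃ i, r = cs.simple i := by
      intro r hr
      obtain ⟨g, hg, i, _, rfl⟩ := hK r hr
      rw [h0, Subgroup.mem_bot] at hg
      exact ⟨i, by rw [hg]; group⟩
    have himg : cs.simple '' ({i | cs.simple i ∈ K} : Set B) = (K : Set W) := by
      ext w
      constructor
      · rintro ⟨i, hi, rfl⟩
        exact hi
      · intro hw
        obtain ⟨i, rfl⟩ := hK' w hw
        exact ⟨i, hw, rfl⟩
    have hfin : ({i | cs.simple i ∈ K} : Set B).Finite :=
      Set.Finite.of_finite_image (by rw [himg]; exact K.finite_toSet)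
        (simple_injective cs).injOn
    rw [← himg, ← hfin.coe_toFinset]
    refine hFC hfin.toFinset ?_
    intro i hi j hj h0
    rw [Set.Finite.mem_toFinset] at hi hj
    obtain ⟨n, hn, h1⟩ := isOfFinOrder_iff_pow_eq_one.1 (hord _ hi _ hj)
    exact pow_ne_one_of_eq_zero cs h0 hn.ne' h1

end Pool.Agent.H26.SD
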